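import Pool.Agent.H258.FSO.Main

/-!
# Möbius disjointness for liminal C*-algebras whose spectrum orbits are finite or escape

Let `A` be a C*-algebra (unital or not, exact or not), `α` a `*`-endomorphism of `A` of any entropy.
The element `x` is *admissible* if for every irreducible representation `π` of `A` either
`π ∘ α ^ k` is unitarily equivalent to `π`, through the unitary `V`, for some `k > 0` depending on `π`,
and the operators `π (α ^ j x)`, `j < k`, are norm limits of linear combinations of compact operators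
and of operators `T` with `V T V* = l T`, or the norms of `π (α ^ n x)` tend to zero in mean. Let `D` be
the closed linear span of the admissible elements. The orbits of the elements of `D` are disjoint from the
Möbius function, with all polynomial phases: in the strong operator topology of every representation,
for products of any number of bounded functionals, and, if `D = A`, for all continuous functions on all
compact systems of functionals. If `A` is liminal (all irreducible representations are by compact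
operators) and each orbit of `α` in the spectrum of `A` is finite or escapes in mean, then `D = A`.

The same conclusions hold for the closed linear span of the eigenvectors of `β` and of the products
`v * ι a * w`, `a` in `D`, `v` and `w` eigenvectors of `β`, in each system `(B, β)` with an equivariant
homomorphism `ι` from `(A, α)`; for example for crossed products of `A` by actions which commute with
`α` (in the multiplier algebra, with `β` the extension of `α` which fixes the unitaries of the action).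

Examples: `A` is any liminal C*-algebra (for instance the C*-algebra of a connected nilpotent or
semisimple Lie group, or of a reductive `p`-adic group) and `α = Ad u` for a unitary multiplier `u` of
`A`; then `π ∘ α` is equivalent to `π` for all `π`. The lengths of the orbits in the spectrum need not be
bounded, and the entropy of `α` is arbitrary.

The proof: in an irreducible representation with `π ∘ α ^ k = V π V*` the sequences `π (α ^ n x) ξ` are
uniform limits of linear combinations of images of orbits of unitary representations of `ℤ`, which are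
orthogonal to the Möbius function along residue classes, with polynomial phases; products of scalar
sequences of this kind are of this kind (tensor products). The passage from the pure states to all states
is by the theorem of Rainwater and Simons, one functional at a time (library modules
`Pool.Agent.TH261.NP`).
-/

set_option autoImplicit false

open Filter Topology

namespace Pool.Agent.Results.MP_7a8f48_an.FiniteSpectrumOrbits

/-- the Möbius function with complex values -/
noncomputable def mu (n : ℕ) : ℂ := ((ArithmeticFunction.moebius n : ℤ) : ℂ)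

/-- `e t = exp (2 π i t)` -/
noncomputable def e (t : ℝ) : ℂ := Complex.exp (2 * Real.pi * Complex.I * t)

/-- `(1 / N) ∑_{n = 1}^N a n` tends to zero -/
def MeanZero {E : Type} [NormedAddCommGroup E] [NormedSpace ℂ E] (a : ℕ → E) : Prop :=
  Tendsto (fun N : ℕ => (1 / (N : ℂ)) • ∑ n ∈ Finset.Icc 1 N, a n) atTop (𝓝 0)

section defs

variable {A : Type} [NonUnitalCStarAlgebra A]

section rep

variable {K : Type} [NormedAddCommGroup K] [InnerProductSpace ℂ K] [CompleteSpace K]

/-- `π` is irreducible: it is not zero and only the scalars commute with its image -/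
def Irreducible (π : A →⋆ₙₐ[ℂ] (K →L[ℂ] K)) : Prop :=
  (∃ a, π a ≠ 0) ∧ ∀ T : K →L[ℂ] K, (∀ a, T * π a = π a * T) → ∃ c : ℂ, T = c • 1

/-- the unitary `V` is an equivalence of `π` and `π ∘ α ^ k` -/
def Intertwines (α : A →⋆ₙₐ[ℂ] A) (π : A →⋆ₙₐ[ℂ] (K →L[ℂ] K)) (k : ℕ) (V : unitary (K →L[ℂ] K)) : Prop :=
  ∀ a, π ((α^[k]) a) = (V : K →L[ℂ] K) * π a * star (V : K →L[ℂ] K)

/-- the norm limits of linear combinations of compact operators and of eigenoperators of `T ↦ V T V*` -/
def Small (V : unitary (K →L[ℂ] K)) : Set (K →L[ℂ] K) :=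
  closure (Submodule.span ℂ {T : K →L[ℂ] K | IsCompactOperator T ∨
    ∃ l : ℂ, (V : K →L[ℂ] K) * T * star (V : K →L[ℂ] K) = l • T} : Set (K →L[ℂ] K))

/-- the orbit of `π` is finite, and the orbit of `x` is mapped to operators in `Small V` -/
def FiniteAt (α : A →⋆ₙₐ[ℂ] A) (π : A →⋆ₙₐ[ℂ] (K →L[ℂ] K)) (x : A) : Prop :=
  ∃ k : ℕ, 0 < k ∧ ∃ V : unitary (K →L[ℂ] K), Intertwines α π k V ∧ ∀ j < k, π ((α^[j]) x) ∈ Small V

/-- the norms of the operators `π (α ^ n x)` tend to zero in mean -/
def EscapesAt (α : A →⋆ₙₐ[ℂ] A) (π : A →⋆ₙₐ[ℂ] (K →L[ℂ] K)) (x : A) : Prop :=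
  Tendsto (fun N : ℕ => (N : ℝ)⁻¹ * ∑ n ∈ Finset.range N, ‖π ((α^[n]) x)‖) atTop (𝓝 0)

end rep

/-- admissible elements -/
def Admissible (α : A →⋆ₙₐ[ℂ] A) (x : A) : Prop :=
  ∀ (K : Type) [NormedAddCommGroup K] [InnerProductSpace ℂ K] [CompleteSpace K]
    (π : A →⋆ₙₐ[ℂ] (K →L[ℂ] K)), Irreducible π → FiniteAt α π x ∨ EscapesAt α π x

/-- the closed linear span of the admissible elements -/
noncomputable def D (α : A →⋆ₙₐ[ℂ] A) : Submodule ℂ A :=
  (Submodule.span ℂ {x : A | Admissible α x}).topologicalClosure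

/-- Möbius disjointness of the elements of `S` with polynomial phases -/
structure MoebiusDisjoint (α : A →⋆ₙₐ[ℂ] A) (S : Submodule ℂ A) : Prop where
  /-- in the strong operator topology of all representations -/
  strong : ∀ x ∈ S, ∀ (P : Polynomial ℝ) (K : Type) [NormedAddCommGroup K] [InnerProductSpace ℂ K]
    [CompleteSpace K] (π : A →⋆ₙₐ[ℂ] (K →L[ℂ] K)) (ξ : K),
    MeanZero fun n : ℕ => (mu n * e (P.eval (n : ℝ))) • π ((α^[n]) x) ξ
  /-- for the products of bounded functionals -/
  products : ∀ (r : ℕ) (ρ : Fin r → (A →L[ℂ] ℂ)) (x : Fin r → A), (∀ i, x i ∈ S) →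
    ∀ P : Polynomial ℝ,
    MeanZero fun n : ℕ => mu n * e (P.eval (n : ℝ)) * ∏ i, ρ i ((α^[n]) (x i))
  /-- for all continuous functions on compact systems of functionals -/
  systems : S = ⊤ → ∀ (X : Type) [TopologicalSpace X] [CompactSpace X] (T : X → X) (I : Type)
    (ρ : I → X → (A →L[ℂ] ℂ)), (∀ i a, Continuous fun x => ρ i x a) →
    (∀ i x a, ρ i (T x) a = ρ i x (α a)) → (∀ x y, x ≠ y → ∃ i a, ρ i x a ≠ ρ i y a) →
    ∀ (f : C(X, ℂ)) (x : X), MeanZero fun n : ℕ => mu n * f ((T^[n]) x)

/-- all irreducible representations are by compact operators -/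
def Liminal (A : Type) [NonUnitalCStarAlgebra A] : Prop :=
  ∀ (K : Type) [NormedAddCommGroup K] [InnerProductSpace ℂ K] [CompleteSpace K]
    (π : A →⋆ₙₐ[ℂ] (K →L[ℂ] K)), Irreducible π → ∀ a, IsCompactOperator (π a)

/-- each orbit in the spectrum is finite or escapes in mean -/
def SpectrumOrbits (α : A →⋆ₙₐ[ℂ] A) : Prop :=
  ∀ (K : Type) [NormedAddCommGroup K] [InnerProductSpace ℂ K] [CompleteSpace K]
    (π : A →⋆ₙₐ[ℂ] (K →L[ℂ] K)), Irreducible π →
    (∃ k : ℕ, 0 < k ∧ ∃ V : unitary (K →L[ℂ] K), Intertwines α π k V) ∨ ∀ x, EscapesAt α π x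

/-- `v` is an eigenvector of `β`, with an eigenvalue of modulus one -/
def Eigenvector {B : Type} [CStarAlgebra B] (β : B →⋆ₐ[ℂ] B) (v : B) : Prop :=
  ∃ l : ℂ, ‖l‖ = 1 ∧ β v = l • v

/-- the closed linear span of the eigenvectors of `β` and of the products `v * ι a * w`, where `a` is in
`D α` and `v` and `w` are eigenvectors of `β` -/
noncomputable def Ext (α : A →⋆ₙₐ[ℂ] A) {B : Type} [CStarAlgebra B] (β : B →⋆ₐ[ℂ] B)
    (ι : A →⋆ₙₐ[ℂ] B) : Submodule ℂ B :=
  (Submodule.span ℂ {x : B | Eigenvector β x ∨ ∃ a ∈ D α, ∃ v w, Eigenvector β v ∧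
    Eigenvector β w ∧ x = v * ι a * w}).topologicalClosure

end defs

open Pool.Agent.Helper188.NCM Pool.Agent.TH261.AB Pool.Agent.TH261.NP Pool.Agent.H258.FSO

section proofs

variable {A : Type} [NonUnitalCStarAlgebra A] (α : A →⋆ₙₐ[ℂ] A)

/-- the unitization of the endomorphism -/
noncomputable def up : Unitization ℂ A →⋆ₐ[ℂ] Unitization ℂ A := Unitization.starMap α

theorem up_inr (a : A) : up α (a : Unitization ℂ A) = ((α a : A) : Unitization ℂ A) :=
  Unitization.starMap_inr α a

theorem up_iter (n : ℕ) (a : A) :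
    ((up α)^[n]) (a : Unitization ℂ A) = (((α^[n]) a : A) : Unitization ℂ A) := by
  induction n with
  | zero => rfl
  | succ n ih => rw [Function.iterate_succ_apply', ih, up_inr, Function.iterate_succ_apply']

theorem conj_iter {α : A →⋆ₙₐ[ℂ] A} {K : Type} [NormedAddCommGroup K] [InnerProductSpace ℂ K]
    [CompleteSpace K] {π : A →⋆ₙₐ[ℂ] (K →L[ℂ] K)} {k : ℕ} {V : unitary (K →L[ℂ] K)}
    (hV : Intertwines α π k V) (r n : ℕ) (x : A) :
    π ((α^[k * n + r]) x) =
      (V : K →L[ℂ] K) ^ n * π ((α^[r]) x) * (star (V : K →L[ℂ] K)) ^ n := by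
  induction n with
  | zero => simp
  | succ n ih =>
    rw [show k * (n + 1) + r = k + (k * n + r) by ring, Function.iterate_add_apply, hV, ih,
      pow_succ' (V : K →L[ℂ] K), pow_succ (star (V : K →L[ℂ] K))]
    simp only [mul_assoc]

/-- the admissible elements in the unitization -/
theorem modU_inr {x : A} (hx : Admissible α x) : ModU (up α) (x : Unitization ℂ A) := by
  intro K _ _ _ π hπ
  set π0 : A →⋆ₙₐ[ℂ] (K →L[ℂ] K) :=
    (π : Unitization ℂ A →⋆ₙₐ[ℂ] (K →L[ℂ] K)).comp (Unitization.inrNonUnitalStarAlgHom ℂ A) with hπ0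
  have h0 : ∀ a : A, π (a : Unitization ℂ A) = π0 a := fun a => rfl
  have hit : ∀ n : ℕ, π (((up α)^[n]) (x : Unitization ℂ A)) = π0 ((α^[n]) x) := fun n => by
    rw [up_iter, h0]
  by_cases hz : ∀ a, π0 a = 0
  · refine Or.inl ⟨1, one_pos, 1, fun j _ => ?_⟩
    rw [hit, hz]
    refine ⟨Submodule.zero_mem _, fun n => ?_⟩
    rw [hit, hz, mul_zero, zero_mul]
  · push Not at hz
    have hirr : Irreducible π0 := by
      refine ⟨hz, fun T hT => hπ T fun w => ?_⟩
      have hw : w = algebraMap ℂ (Unitization ℂ A) w.fst + (w.snd : Unitization ℂ A) := by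
        rw [Unitization.algebraMap_eq_inl]
        exact (Unitization.inl_fst_add_inr_snd_eq w).symm
      rw [hw, map_add, mul_add, add_mul, h0, hT, AlgHomClass.commutes, Algebra.commutes]
    rcases hx K π0 hirr with ⟨k, hk, V, hV, hj⟩ | h
    · refine Or.inl ⟨k, hk, V, fun j hjk => ?_⟩
      refine ⟨?_, fun n => ?_⟩
      · rw [hit]
        exact hj j hjk
      · rw [hit, hit, conj_iter hV]
    · refine Or.inr ?_
      refine h.congr fun N => ?_
      congr 1
      exact Finset.sum_congr rfl fun n _ => by rw [hit]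

theorem modU_one : ModU (up α) (1 : Unitization ℂ A) := by
  intro K _ _ _ π hπ
  have hit : ∀ n : ℕ, π (((up α)^[n]) (1 : Unitization ℂ A)) = 1 := fun n => by
    rw [iter_one, map_one]
  refine Or.inl ⟨1, one_pos, 1, fun j _ => ?_⟩
  rw [hit]
  refine ⟨?_, fun n => ?_⟩
  · refine Submodule.le_topologicalClosure _ (Submodule.subset_span (Or.inr ⟨1, ?_⟩))
    simp
  · rw [hit]
    simp

theorem cont_inr : Continuous fun a : A => (a : Unitization ℂ A) :=
  Unitization.isometry_inr.continuous

/-- the closed span in the unitization -/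
theorem inr_mem {x : A} (hx : x ∈ D α) : (x : Unitization ℂ A) ∈
    (Submodule.span ℂ {w : Unitization ℂ A | ModU (up α) w}).topologicalClosure := by
  have h1 : x ∈ closure (Submodule.span ℂ {x : A | Admissible α x} : Set A) := hx
  have h2 : (x : Unitization ℂ A) ∈ closure ((fun a : A => (a : Unitization ℂ A)) ''
      (Submodule.span ℂ {x : A | Admissible α x} : Set A)) :=
    image_closure_subset_closure_image cont_inr ⟨x, h1, rfl⟩
  refine closure_mono ?_ h2
  rintro _ ⟨a, ha, rfl⟩
  have ha' : a ∈ Submodule.span ℂ {x : A | Admissible α x} := ha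
  clear ha
  show (a : Unitization ℂ A) ∈ Submodule.span ℂ {w : Unitization ℂ A | ModU (up α) w}
  induction ha' using Submodule.span_induction with
  | mem x hx => exact Submodule.subset_span (modU_inr α hx)
  | zero => rw [Unitization.inr_zero]; exact Submodule.zero_mem _
  | add x y _ _ hx hy => rw [Unitization.inr_add]; exact Submodule.add_mem _ hx hy
  | smul c x _ hx => rw [Unitization.inr_smul]; exact Submodule.smul_mem _ c hx

theorem mu_eq (n : ℕ) : mu n = mob n := rfl

theorem e_eq (t : ℝ) : e t = ee t := rfl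

theorem meanZero_of {E : Type} [NormedAddCommGroup E] [NormedSpace ℂ E] {a : ℕ → E} (h0 : a 0 = 0)
    (h : Tendsto (vav a) atTop (𝓝 0)) : MeanZero a := vav_Icc h0 h

theorem mob_zero : mob 0 = 0 := by simp [mob]

theorem pf_poly (P : Polynomial ℝ) : IsPF fun n : ℕ => P.eval (n : ℝ) := ⟨P, fun _ => rfl⟩

/-- the strong statement -/
def DS (S : Submodule ℂ A) : Prop :=
  ∀ x ∈ S, ∀ f : ℕ → ℝ, IsPF f → ∀ (K : Type) [NormedAddCommGroup K] [InnerProductSpace ℂ K]
    [CompleteSpace K] (π : A →⋆ₙₐ[ℂ] (K →L[ℂ] K)) (ξ : K),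
    Tendsto (vav fun n => (mob n * ee (f n)) • π ((α^[n]) x) ξ) atTop (𝓝 0)

/-- products of functionals -/
def DP (S : Submodule ℂ A) : Prop :=
  ∀ L : List ((A →L[ℂ] ℂ) × A), (∀ p ∈ L, p.2 ∈ S) → ∀ f : ℕ → ℝ, IsPF f →
    Tendsto (vav fun n => mob n * (ee (f n) * (L.map fun p => p.1 ((α^[n]) p.2)).prod)) atTop (𝓝 0)

/-- the adjoint functional -/
noncomputable def adjG (ρ : A →L[ℂ] ℂ) : A →L[ℂ] ℂ :=
  LinearMap.mkContinuous
    { toFun := fun b => starRingEnd ℂ (ρ (star b))
      map_add' := fun a b => by rw [star_add, map_add, map_add]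
      map_smul' := fun c a => by
        rw [star_smul, map_smul, smul_eq_mul, map_mul, RCLike.star_def, Complex.conj_conj,
          RingHom.id_apply, smul_eq_mul] } ‖ρ‖ (fun b => by
      show ‖starRingEnd ℂ (ρ (star b))‖ ≤ _
      rw [RCLike.norm_conj]
      have := ρ.le_opNorm (star b)
      rwa [norm_star] at this)

theorem adjG_apply (ρ : A →L[ℂ] ℂ) (b : A) : adjG ρ b = starRingEnd ℂ (ρ (star b)) := rfl

theorem iter_star' (n : ℕ) (x : A) : (α^[n]) (star x) = star ((α^[n]) x) := by
  induction n generalizing x with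
  | zero => rfl
  | succ n ih => rw [Function.iterate_succ_apply, Function.iterate_succ_apply, map_star, ih]

/-- systems of functionals -/
theorem systems_of {S : Submodule ℂ A} (h : DP α S) (hS : S = ⊤)
    {X : Type} [TopologicalSpace X] [CompactSpace X] (T : X → X) {I : Type}
    (ρ : I → X → (A →L[ℂ] ℂ)) (hc : ∀ i a, Continuous fun x => ρ i x a)
    (hρ : ∀ i x a, ρ i (T x) a = ρ i x (α a))
    (hs : ∀ x y, x ≠ y → ∃ i a, ρ i x a ≠ ρ i y a) (f : C(X, ℂ)) (x : X) :
    Tendsto (vav fun n => mob n * f ((T^[n]) x)) atTop (𝓝 0) := by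
  have hit : ∀ i (n : ℕ) a, ρ i ((T^[n]) x) a = ρ i x ((α^[n]) a) := by
    intro i n
    induction n with
    | zero => intro a; rfl
    | succ n ih => intro a; rw [Function.iterate_succ_apply', hρ, ih, ← Function.iterate_succ_apply]
  let e : I × A → C(X, ℂ) := fun p => ⟨fun x => ρ p.1 x p.2, hc p.1 p.2⟩
  refine top_gen T x (Set.range e ∪ star (Set.range e)) ?_ ?_ ?_ f
  · rintro g (hg | hg)
    · exact Or.inr (by rwa [Set.mem_star, star_star])
    · exact Or.inl hg
  · intro y z hyz
    obtain ⟨i, a, h1⟩ := hs y z hyz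
    exact ⟨e (i, a), Or.inl ⟨(i, a), rfl⟩, h1⟩
  have hlist : ∀ l : List C(X, ℂ), (∀ g ∈ l, g ∈ Set.range e ∪ star (Set.range e)) →
      ∃ L : List ((A →L[ℂ] ℂ) × A),
      ∀ n : ℕ, l.prod ((T^[n]) x) = (L.map fun p => p.1 ((α^[n]) p.2)).prod := by
    intro l
    induction l with
    | nil => intro _; exact ⟨[], fun n => by simp⟩
    | cons g l ih =>
      intro hl
      obtain ⟨L, hL⟩ := ih fun g' hg' => hl g' (List.mem_cons_of_mem _ hg')
      rcases hl g List.mem_cons_self with hg | hg
      · obtain ⟨⟨i, a⟩, rfl⟩ := hg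
        refine ⟨(ρ i x, a) :: L, fun n => ?_⟩
        rw [List.prod_cons, List.map_cons, List.prod_cons, ContinuousMap.mul_apply, hL]
        congr 1
        exact hit i n a
      · obtain ⟨⟨i, a⟩, hg⟩ := hg
        refine ⟨(adjG (ρ i x), star a) :: L, fun n => ?_⟩
        rw [List.prod_cons, List.map_cons, List.prod_cons, ContinuousMap.mul_apply, hL]
        congr 1
        have h1 : g = star (e (i, a)) := by rw [hg, star_star]
        rw [h1, ContinuousMap.star_apply, adjG_apply, iter_star', star_star]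
        show star (ρ i ((T^[n]) x) a) = _
        rw [hit]
        rfl
  intro l hl
  obtain ⟨L, hL⟩ := hlist l hl
  refine (h L (fun p _ => by rw [hS]; trivial) (fun _ => 0) (IsPF.const 0)).congr fun N => ?_
  rw [vav, vav]
  congr 1
  exact Finset.sum_congr rfl fun n _ => by rw [hL, ee_zero, one_mul]

/-- the two statements suffice -/
theorem moebiusDisjoint_of {S : Submodule ℂ A} (h1 : DS α S) (h2 : DP α S) :
    MoebiusDisjoint α S where
  strong x hx P K _ _ _ π ξ :=
    meanZero_of (by rw [mu_eq, mob_zero, zero_mul, zero_smul]) (h1 x hx _ (pf_poly P) K π ξ)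
  products r ρ x hx P := by
    have h3 := h2 (List.ofFn fun i => (ρ i, x i)) (fun p hp => by
      obtain ⟨i, rfl⟩ := (List.mem_ofFn' _ _).1 hp
      exact hx i) _ (pf_poly P)
    refine meanZero_of (by rw [mu_eq, mob_zero, zero_mul, zero_mul]) (h3.congr fun N => ?_)
    rw [vav, vav]
    congr 1
    refine Finset.sum_congr rfl fun n _ => ?_
    rw [List.map_ofFn, List.prod_ofFn, mul_assoc]
    rfl
  systems hS X _ _ T I ρ hc hρ hs f x :=
    meanZero_of (by rw [mu_eq, mob_zero, zero_mul]) (systems_of α h2 hS T ρ hc hρ hs f x)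

/-- the extension of a functional to the unitization -/
noncomputable def exF (ρ : A →L[ℂ] ℂ) : Unitization ℂ A →L[ℂ] ℂ where
  toFun w := ρ w.snd
  map_add' w w' := by rw [Unitization.snd_add, map_add]
  map_smul' c w := by rw [Unitization.snd_smul, map_smul]; rfl
  cont := ρ.continuous.comp Unitization.continuous_snd

theorem exF_apply (ρ : A →L[ℂ] ℂ) (w : Unitization ℂ A) : exF ρ w = ρ w.snd := rfl

theorem exF_iter (ρ : A →L[ℂ] ℂ) (n : ℕ) (a : A) :
    exF ρ (((up α)^[n]) (a : Unitization ℂ A)) = ρ ((α^[n]) a) := by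
  rw [up_iter, exF_apply, Unitization.snd_inr]

theorem DS_D : DS α (D α) := by
  intro x hx f hf K _ _ _ π ξ
  have h1 := strong_closure (α := up α) (c := fun n => mob n * ee (f n))
    (fun n => by rw [norm_mul, norm_ee, mul_one]; exact norm_mob_le _)
    K (Unitization.starLift π) ξ
    (fun w hw => ModU.strong hw hf K (Unitization.starLift π) ξ) (inr_mem α hx)
  refine h1.congr fun N => ?_
  rw [vav, vav]
  congr 1
  refine Finset.sum_congr rfl fun n _ => ?_
  rw [up_iter]
  congr 2
  exact Unitization.starLift_symm_apply_apply (Unitization.starLift π) _ ▸ by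
    rw [Equiv.symm_apply_apply]

theorem DP_D : DP α (D α) := by
  intro L hL f hf
  have h1 := multiU (α := up α) (L.map fun p => (exF p.1, ((p.2 : A) : Unitization ℂ A)))
    (fun p hp => by
      obtain ⟨q, hq, rfl⟩ := List.mem_map.1 hp
      exact inr_mem α (hL q hq)) hf
  refine h1.congr fun N => ?_
  rw [vav, vav]
  congr 1
  refine Finset.sum_congr rfl fun n _ => ?_
  rw [List.map_map]
  congr 3
  refine List.map_congr_left fun p _ => ?_
  exact exF_iter α p.1 n p.2

theorem D_top (hA : Liminal A) (hα : SpectrumOrbits α) : D α = ⊤ := by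
  refine Submodule.eq_top_iff'.2 fun x => ?_
  refine Submodule.le_topologicalClosure _ (Submodule.subset_span ?_)
  intro K _ _ _ π hπ
  rcases hα K π hπ with ⟨k, hk, V, hV⟩ | h
  · exact Or.inl ⟨k, hk, V, hV, fun j _ => subset_closure (Submodule.subset_span
      (Or.inl (hA K π hπ _)))⟩
  · exact Or.inr (h x)

/-! ### extensions by eigenvectors -/

/-- linearity and limits -/
theorem lin_closure {E F : Type} [NormedAddCommGroup E] [NormedSpace ℂ E] [NormedAddCommGroup F]
    [NormedSpace ℂ F] {S : Set E} (T : ℕ → E →ₗ[ℂ] F) {C : ℝ} (hC : 0 ≤ C)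
    (hT : ∀ n x, ‖T n x‖ ≤ C * ‖x‖) (hS : ∀ x ∈ S, Tendsto (vav fun n => T n x) atTop (𝓝 0))
    {x : E} (hx : x ∈ (Submodule.span ℂ S).topologicalClosure) :
    Tendsto (vav fun n => T n x) atTop (𝓝 0) := by
  have h0 : ∀ x ∈ Submodule.span ℂ S, Tendsto (vav fun n => T n x) atTop (𝓝 0) := by
    intro x hx
    induction hx using Submodule.span_induction with
    | mem x hx => exact hS x hx
    | zero =>
      have : (vav fun n => T n (0 : E)) = fun _ => 0 := by
        funext N
        simp [vav]
      rw [this]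
      exact tendsto_const_nhds
    | add x y _ _ hx hy =>
      have := hx.add hy
      rw [add_zero] at this
      refine this.congr fun N => ?_
      rw [vav, vav, vav, ← smul_add, ← Finset.sum_add_distrib]
      congr 1
      exact Finset.sum_congr rfl fun n _ => by rw [map_add]
    | smul d x _ hx =>
      have := hx.const_smul d
      rw [smul_zero] at this
      refine this.congr fun N => ?_
      rw [vav, vav, smul_comm]
      congr 1
      rw [Finset.smul_sum]
      exact Finset.sum_congr rfl fun n _ => by rw [map_smul]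
  rw [Metric.tendsto_atTop]
  intro ε hε
  obtain ⟨y, hy, hd⟩ := Metric.mem_closure_iff.1 (show x ∈ closure _ from hx)
    (ε / 2 / (C + 1)) (by positivity)
  obtain ⟨N0, hN0⟩ := Metric.tendsto_atTop.1 (h0 y hy) (ε / 2) (by positivity)
  refine ⟨N0, fun N hN => ?_⟩
  have h2 := hN0 N hN
  rw [dist_zero_right] at h2 ⊢
  have e : vav (fun n => T n x) N = vav (fun n => T n (x - y)) N + vav (fun n => T n y) N := by
    rw [vav, vav, vav, ← smul_add, ← Finset.sum_add_distrib]
    congr 1
    exact Finset.sum_congr rfl fun n _ => by rw [map_sub, sub_add_cancel]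
  rw [e]
  have h3 := vav_le (a := fun n => T n (x - y)) (C := ε / 2) (by positivity)
    (fun n => by
      rw [dist_eq_norm] at hd
      calc _ ≤ C * ‖x - y‖ := hT n _
        _ ≤ C * (ε / 2 / (C + 1)) := by gcongr
        _ = C / (C + 1) * (ε / 2) := by ring
        _ ≤ 1 * (ε / 2) := by
            gcongr
            rw [div_le_one (by positivity)]
            linarith
        _ = _ := one_mul _) N
  have h4 := norm_add_le (vav (fun n => T n (x - y)) N) (vav (fun n => T n y) N)
  linarith

theorem iter_norm' {A : Type} [NonUnitalCStarAlgebra A] (α : A →⋆ₙₐ[ℂ] A) (n : ℕ) (x : A) :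
    ‖(α^[n]) x‖ ≤ ‖x‖ := by
  induction n generalizing x with
  | zero => exact le_rfl
  | succ n ih =>
    rw [Function.iterate_succ_apply]
    exact (ih _).trans (NonUnitalStarAlgHom.norm_apply_le α x)

/-- the iterates as linear maps -/
noncomputable def itL {A : Type} [NonUnitalCStarAlgebra A] (α : A →⋆ₙₐ[ℂ] A) (n : ℕ) : A →ₗ[ℂ] A where
  toFun := α^[n]
  map_add' x y := by
    induction n generalizing x y with
    | zero => rfl
    | succ n ih => rw [Function.iterate_succ_apply, map_add, ih]; rfl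
  map_smul' c x := by
    induction n generalizing x with
    | zero => rfl
    | succ n ih => rw [Function.iterate_succ_apply, map_smul, ih]; rfl

/-- from a set to its closed linear span, strong convergence -/
theorem DS_span {A : Type} [NonUnitalCStarAlgebra A] (α : A →⋆ₙₐ[ℂ] A) (S : Set A)
    (h : ∀ x ∈ S, ∀ f : ℕ → ℝ, IsPF f → ∀ (K : Type) [NormedAddCommGroup K] [InnerProductSpace ℂ K]
      [CompleteSpace K] (π : A →⋆ₙₐ[ℂ] (K →L[ℂ] K)) (ξ : K),
      Tendsto (vav fun n => (mob n * ee (f n)) • π ((α^[n]) x) ξ) atTop (𝓝 0)) :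
    DS α (Submodule.span ℂ S).topologicalClosure := by
  intro x hx f hf K _ _ _ π ξ
  let T : ℕ → A →ₗ[ℂ] K := fun n => (mob n * ee (f n)) •
    ((ContinuousLinearMap.apply ℂ K ξ : (K →L[ℂ] K) →L[ℂ] K) : (K →L[ℂ] K) →ₗ[ℂ] K).comp
      ((LinearMapClass.linearMap π : A →ₗ[ℂ] (K →L[ℂ] K)).comp (itL α n))
  have hT : ∀ n x, T n x = (mob n * ee (f n)) • π ((α^[n]) x) ξ := fun n x => rfl
  refine lin_closure T (C := ‖ξ‖) (norm_nonneg _) (fun n x => ?_) (fun x hx => h x hx f hf K π ξ) hx
  rw [hT, norm_smul, norm_mul, norm_ee, mul_one]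
  calc _ ≤ 1 * (‖x‖ * ‖ξ‖) := by
        gcongr
        · exact norm_mob_le _
        · refine (ContinuousLinearMap.le_opNorm _ _).trans ?_
          gcongr
          exact (NonUnitalStarAlgHom.norm_apply_le π _).trans (iter_norm' α n _)
    _ = _ := by ring

/-- from a set to its closed linear span, products -/
theorem DP_span {A : Type} [NonUnitalCStarAlgebra A] (α : A →⋆ₙₐ[ℂ] A) (S : Set A)
    (h : ∀ L : List ((A →L[ℂ] ℂ) × A), (∀ p ∈ L, p.2 ∈ S) → ∀ f : ℕ → ℝ, IsPF f →
      Tendsto (vav fun n => mob n * (ee (f n) * (L.map fun p => p.1 ((α^[n]) p.2)).prod))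
        atTop (𝓝 0)) :
    DP α (Submodule.span ℂ S).topologicalClosure := by
  have hb : ∀ L : List ((A →L[ℂ] ℂ) × A), ∃ C : ℝ, 0 ≤ C ∧
      ∀ n, ‖(L.map fun p => p.1 ((α^[n]) p.2)).prod‖ ≤ C := by
    intro L
    induction L with
    | nil => exact ⟨1, zero_le_one, fun n => by simp⟩
    | cons p L ih =>
      obtain ⟨C, hC0, hC⟩ := ih
      refine ⟨‖p.1‖ * ‖p.2‖ * C, by positivity, fun n => ?_⟩
      rw [List.map_cons, List.prod_cons, norm_mul]
      have h2 : ‖p.1 ((α^[n]) p.2)‖ ≤ ‖p.1‖ * ‖p.2‖ := by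
        refine (p.1.le_opNorm _).trans ?_
        have := iter_norm' α n p.2
        gcongr
      have h3 := hC n
      gcongr
  have key : ∀ (L L2 : List ((A →L[ℂ] ℂ) × A)),
      (∀ p ∈ L, p.2 ∈ (Submodule.span ℂ S).topologicalClosure) → (∀ p ∈ L2, p.2 ∈ S) →
      ∀ f : ℕ → ℝ, IsPF f →
      Tendsto (vav fun n => mob n * (ee (f n) * ((L.map fun p => p.1 ((α^[n]) p.2)).prod *
        (L2.map fun p => p.1 ((α^[n]) p.2)).prod))) atTop (𝓝 0) := by
    intro L
    induction L with
    | nil =>
      intro L2 _ hL2 f hf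
      refine (h L2 hL2 f hf).congr fun N => ?_
      simp
    | cons p L ih =>
      intro L2 hL hL2 f hf
      obtain ⟨ρ, a0⟩ := p
      obtain ⟨C, hC0, hC⟩ := hb L
      obtain ⟨C2, hC20, hC2⟩ := hb L2
      set F : ℕ → ℂ := fun n => mob n * (ee (f n) * ((L.map fun p => p.1 ((α^[n]) p.2)).prod *
        (L2.map fun p => p.1 ((α^[n]) p.2)).prod)) with hF
      have hFb : ∀ n, ‖F n‖ ≤ C * C2 := by
        intro n
        rw [hF]
        simp only
        rw [norm_mul, norm_mul, norm_mul, norm_ee, one_mul]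
        calc _ ≤ 1 * (C * C2) := by
              gcongr
              · exact norm_mob_le _
              · exact hC n
              · exact hC2 n
          _ = _ := one_mul _
      let T : ℕ → A →ₗ[ℂ] ℂ := fun n => F n • (ρ : A →ₗ[ℂ] ℂ).comp (itL α n)
      have hT : ∀ n x, T n x = F n * ρ ((α^[n]) x) := fun n x => rfl
      have h1 := lin_closure T (C := C * C2 * ‖ρ‖) (by positivity) (fun n x => by
          rw [hT, norm_mul, mul_assoc (C * C2)]
          have h2 := hFb n
          have h3 : ‖ρ ((α^[n]) x)‖ ≤ ‖ρ‖ * ‖x‖ := by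
            refine (ρ.le_opNorm _).trans ?_
            have := iter_norm' α n x
            gcongr
          gcongr)
        (S := S) (fun x hx => by
          refine (ih ((ρ, x) :: L2) (fun q hq => hL q (List.mem_cons_of_mem _ hq))
            (fun q hq => ?_) f hf).congr fun N => ?_
          · rcases List.mem_cons.1 hq with rfl | hq
            · exact hx
            · exact hL2 q hq
          · rw [vav, vav]
            congr 1
            refine Finset.sum_congr rfl fun n _ => ?_
            rw [hT, List.map_cons, List.prod_cons, hF]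
            simp only
            ring) (hL (ρ, a0) List.mem_cons_self)
      refine h1.congr fun N => ?_
      rw [vav, vav]
      congr 1
      refine Finset.sum_congr rfl fun n _ => ?_
      rw [hT, List.map_cons, List.prod_cons, hF]
      simp only
      ring
  intro L hL f hf
  refine (key L [] hL (fun p hp => absurd hp List.not_mem_nil) f hf).congr fun N => ?_
  rw [vav, vav]
  congr 1
  refine Finset.sum_congr rfl fun n _ => ?_
  rw [List.map_nil, List.prod_nil, mul_one]

section ext

variable {α} {B : Type} [CStarAlgebra B] {β : B →⋆ₐ[ℂ] B} {ι : A →⋆ₙₐ[ℂ] B}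

theorem ι_iter (hι : ∀ a, β (ι a) = ι (α a)) (n : ℕ) (a : A) : (β^[n]) (ι a) = ι ((α^[n]) a) := by
  induction n with
  | zero => rfl
  | succ n ih => rw [Function.iterate_succ_apply', ih, hι, Function.iterate_succ_apply']

theorem prod_iter (hι : ∀ a, β (ι a) = ι (α a)) {v w : B} {θ θ' : ℝ} (hv : β v = ee θ • v)
    (hw : β w = ee θ' • w) (n : ℕ) (a : A) :
    (β^[n]) (v * ι a * w) = ee (n * (θ + θ')) • (v * ι ((α^[n]) a) * w) := by
  rw [TH261.AB.iter_mul, TH261.AB.iter_mul, eig_iter hv, eig_iter hw, ι_iter hι, smul_mul_assoc,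
    mul_smul_comm, smul_mul_assoc, smul_smul, ← ee_add]
  congr 2
  ring

/-- the functional `a ↦ ρ (v * ι a * w)` -/
theorem exists_functional (ρ : B →L[ℂ] ℂ) (v w : B) : ∃ ψ : A →L[ℂ] ℂ, ∀ a, ψ a = ρ (v * ι a * w) := by
  refine ⟨LinearMap.mkContinuous
    { toFun := fun a => ρ (v * ι a * w)
      map_add' := fun a b => by rw [map_add, mul_add, add_mul, map_add]
      map_smul' := fun c a => by
        rw [map_smul, mul_smul_comm, smul_mul_assoc, map_smul, RingHom.id_apply] }
    (‖ρ‖ * (‖v‖ * ‖w‖)) fun b => ?_, fun b => rfl⟩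
  show ‖ρ (v * ι b * w)‖ ≤ _
  refine (ρ.le_opNorm _).trans ?_
  have h5 := norm_mul_le (v * ι b) w
  have h6 := norm_mul_le v (ι b)
  have h7 : ‖ι b‖ ≤ ‖b‖ := NonUnitalStarAlgHom.norm_apply_le ι b
  calc _ ≤ ‖ρ‖ * (‖v‖ * ‖b‖ * ‖w‖) := by
        gcongr
        refine h5.trans ?_
        gcongr
        exact h6.trans (by gcongr)
    _ = _ := by ring

theorem DS_ext (hι : ∀ a, β (ι a) = ι (α a)) : DS (β : B →⋆ₙₐ[ℂ] B) (Ext α β ι) := by
  refine DS_span (β : B →⋆ₙₐ[ℂ] B) _ ?_
  rintro x (⟨l, hl, hx⟩ | ⟨a, ha, v, w, ⟨l, hl, hv⟩, ⟨l', hl', hw⟩, rfl⟩) f hf K _ _ _ π ξ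
  · obtain ⟨θ, rfl⟩ := exists_ee hl
    have hn : ∀ n : ℕ, ((β : B →⋆ₙₐ[ℂ] B)^[n]) x = ee (n * θ) • x := fun n => eig_iter hx n
    have h1 : IsPV fun n => ee (f n + n * θ) • π x ξ := by
      refine ⟨K, inferInstance, inferInstance, inferInstance, PUnit, inferInstance, fun _ => 1, 0,
        fun _ => 0, 0, 0, fun n => f n + n * θ, ξ, π x, ?_, fun n => rfl,
        hf.add (IsPF.id.mul (IsPF.const θ)), fun n => ?_⟩
      · intro a b x
        simp [ee_zero]
      · simp
    have h2 := h1.mobT one_pos zero_lt_one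
    refine h2.congr fun N => ?_
    rw [vav, vav]
    congr 1
    refine Finset.sum_congr rfl fun n _ => ?_
    rw [hn, map_smul, smul_apply, smul_smul, smul_smul, ee_add]
    congr 1
    rw [one_mul, add_zero]
    ring
  · obtain ⟨θ, rfl⟩ := exists_ee hl
    obtain ⟨θ', rfl⟩ := exists_ee hl'
    have h1 := DS_D α a ha (fun n => f n + n * (θ + θ'))
      (hf.add (IsPF.id.mul (IsPF.const (θ + θ')))) K (π.comp ι) (π w ξ)
    have h2 := ((π v).continuous.tendsto 0).comp h1
    rw [map_zero] at h2
    refine h2.congr fun N => ?_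
    rw [Function.comp_apply, vav, vav, map_smul, map_sum]
    congr 1
    refine Finset.sum_congr rfl fun n _ => ?_
    have h3 : ((β : B →⋆ₙₐ[ℂ] B)^[n]) (v * ι a * w) =
        ee (n * (θ + θ')) • (v * ι ((α^[n]) a) * w) := prod_iter hι hv hw n a
    rw [h3, map_smul, map_smul, smul_apply, smul_smul, ee_add, mul_assoc (mob n), map_mul, map_mul]
    rfl

theorem DP_ext (hι : ∀ a, β (ι a) = ι (α a)) : DP (β : B →⋆ₙₐ[ℂ] B) (Ext α β ι) := by
  refine DP_span (β : B →⋆ₙₐ[ℂ] B) _ ?_
  intro L hL f hf
  have key : ∀ L : List ((B →L[ℂ] ℂ) × B), (∀ p ∈ L, p.2 ∈ {x : B | Eigenvector β x ∨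
      ∃ a ∈ D α, ∃ v w, Eigenvector β v ∧ Eigenvector β w ∧ x = v * ι a * w}) →
      ∃ (c : ℂ) (θ : ℝ) (L' : List ((A →L[ℂ] ℂ) × A)), (∀ p ∈ L', p.2 ∈ D α) ∧
      ∀ n : ℕ, (L.map fun p => p.1 (((β : B →⋆ₙₐ[ℂ] B)^[n]) p.2)).prod =
        c * (ee (n * θ) * (L'.map fun p => p.1 ((α^[n]) p.2)).prod) := by
    intro L
    induction L with
    | nil => exact fun _ => ⟨1, 0, [], fun p hp => absurd hp List.not_mem_nil, fun n => by
        simp [ee_zero]⟩
    | cons p L ih =>
      intro hL
      obtain ⟨c, θ, L', hL', h1⟩ := ih fun q hq => hL q (List.mem_cons_of_mem _ hq)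
      obtain ⟨ρ, x⟩ := p
      rcases hL (ρ, x) List.mem_cons_self with ⟨l, hl, hx⟩ | ⟨a, ha, v, w, ⟨l, hl, hv⟩,
        ⟨l', hl', hw⟩, hx⟩
      · simp only at hx
        obtain ⟨τ, rfl⟩ := exists_ee hl
        refine ⟨ρ x * c, τ + θ, L', hL', fun n => ?_⟩
        have hn : ((β : B →⋆ₙₐ[ℂ] B)^[n]) x = ee (n * τ) • x := eig_iter hx n
        rw [List.map_cons, List.prod_cons, h1]
        simp only
        rw [hn, map_smul, smul_eq_mul, mul_add, ee_add]
        ring
      · simp only at hx
        subst hx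
        obtain ⟨τ, rfl⟩ := exists_ee hl
        obtain ⟨τ', rfl⟩ := exists_ee hl'
        obtain ⟨ψ, hψ⟩ := exists_functional (ι := ι) ρ v w
        refine ⟨c, (τ + τ') + θ, (ψ, a) :: L', fun p hp => ?_, fun n => ?_⟩
        · rcases List.mem_cons.1 hp with rfl | hp
          · exact ha
          · exact hL' p hp
        · have h3 : ((β : B →⋆ₙₐ[ℂ] B)^[n]) (v * ι a * w) =
              ee (n * (τ + τ')) • (v * ι ((α^[n]) a) * w) := prod_iter hι hv hw n a
          rw [List.map_cons, List.prod_cons, h1, List.map_cons, List.prod_cons]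
          simp only
          rw [h3, map_smul, smul_eq_mul, hψ, mul_add (n : ℝ) (τ + τ') θ, ee_add]
          ring
  obtain ⟨c, θ, L', hL', h1⟩ := key L hL
  have h2 := DP_D α L' hL' (fun n => f n + n * θ) (hf.add (IsPF.id.mul (IsPF.const θ)))
  refine (vav_mul' c h2).congr fun N => ?_
  rw [vav, vav]
  congr 1
  refine Finset.sum_congr rfl fun n _ => ?_
  rw [h1, ee_add]
  ring

end ext

end proofs

/-- **Möbius disjointness for liminal C*-algebras whose spectrum orbits are finite or escape.**

(1) The orbits of the elements of the closed linear span `D α` of the admissible elements are disjoint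
from the Möbius function with polynomial phases, strongly in all representations, for products of
bounded functionals and, if `D α` is everything, for all compact systems of functionals. (2) If `A` is
liminal and each orbit of `α` in the spectrum is finite or escapes in mean, then `D α = A`. (3) The same
holds for the extensions by eigenvectors. -/
theorem result :
    (∀ (A : Type) [NonUnitalCStarAlgebra A] (α : A →⋆ₙₐ[ℂ] A), MoebiusDisjoint α (D α)) ∧
    (∀ (A : Type) [NonUnitalCStarAlgebra A] (α : A →⋆ₙₐ[ℂ] A), Liminal A → SpectrumOrbits α →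
      D α = ⊤) ∧
    ∀ (A : Type) [NonUnitalCStarAlgebra A] (α : A →⋆ₙₐ[ℂ] A) (B : Type) [CStarAlgebra B]
      (β : B →⋆ₐ[ℂ] B) (ι : A →⋆ₙₐ[ℂ] B), (∀ a, β (ι a) = ι (α a)) →
      MoebiusDisjoint (β : B →⋆ₙₐ[ℂ] B) (Ext α β ι) :=
  ⟨fun _ _ α => moebiusDisjoint_of α (DS_D α) (DP_D α), fun _ _ α hA hα => D_top α hA hα,
    fun _ _ α B _ β ι hι => moebiusDisjoint_of (A := B) (β : B →⋆ₙₐ[ℂ] B) (S := Ext α β ι)
      (DS_ext hι) (DP_ext hι)⟩

end Pool.Agent.Results.MP_7a8f48_an.FiniteSpectrumOrbits
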