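import Pool.Agent.H258.PA.Main
import Pool.Agent.H258.TR.Closure
import Pool.Graph.R_seed8.W726.NS.Reg

/-!
# Möbius disjointness for automorphisms of polynomial growth of virtually free groups (helper258)

A group has the power alternative if any two elements have powers `a ^ n`, `b ^ n`, `n ≥ 1`, which
commute or freely generate a free group. We prove that this property passes from the vertex
stabilisers of an action on a tree to the group if the edge stabilisers embed in an abelian quotient
of the group. This applies to the mapping tori `G ⋊ ℤ` of automorphisms: the class of the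
automorphisms whose mapping torus has the power alternative is closed under extensions by stable
letters `b ↦ u b v`, under free products with partial conjugations, direct products, restrictions,
roots, products with inner automorphisms, and overgroups of finite index. So it contains the
automorphisms of virtually free groups which have a power that is unipotent of polynomial growth;
for these automorphisms the reduced C*-algebra of the group is Möbius disjoint.
-/

set_option autoImplicit false

open Filter Topology Monoid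

namespace Pool.Agent.Results.MP_7a8f48_an.MappingTori

/-- Möbius disjointness of a unital `*`-endomorphism `α`: for each `x` the sums of
`μ(n) zⁿ αⁿ(x)`, `n ≤ N`, are `o(N)` in norm, uniformly over all `z` of modulus one; and the averages
of `μ(n) ρ(αⁿ x)` tend to zero for each bounded functional `ρ`. -/
def MobiusDisjoint {U : Type} [CStarAlgebra U] (α : U →⋆ₐ[ℂ] U) : Prop :=
  ∀ x : U,
    (∀ ε : ℝ, 0 < ε → ∃ N₀ : ℕ, ∀ N ≥ N₀, ∀ z : ℂ, ‖z‖ = 1 →
      ‖∑ n ∈ Finset.Icc 1 N, (((ArithmeticFunction.moebius n : ℤ) : ℂ) * z ^ n) • (α^[n]) x‖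
        ≤ ε * N) ∧
    ∀ ρ : U →L[ℂ] ℂ, Tendsto (fun N : ℕ => (1 / (N : ℂ)) *
      ∑ n ∈ Finset.Icc 1 N, ((ArithmeticFunction.moebius n : ℤ) : ℂ) * ρ ((α^[n]) x)) atTop (𝓝 0)

/-- `w` is an eigenvector of `β` with an eigenvalue of modulus one -/
def Eigenvector {B : Type} [CStarAlgebra B] (β : B →⋆ₐ[ℂ] B) (w : B) : Prop :=
  ∃ l : ℂ, ‖l‖ = 1 ∧ β w = l • w

/-- `α` is Möbius disjoint, together with each system `(B, β)` which is generated over eigenvectors
of `β` by an equivariant image of `(A, α)` (the products `v * ι a * w` with eigenvectors `v`, `w` of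
`β` span a dense subspace of `B`), and together with each system `(W, γ)` which embeds in such a
`(B, β)`. With `B = A` this contains the restrictions of `α` to invariant C*-subalgebras; another
example of `(B, β)` is the crossed product of `A` by `α` with the inner automorphism. -/
def AllDisjoint {A : Type} [CStarAlgebra A] (α : A →⋆ₐ[ℂ] A) : Prop :=
  MobiusDisjoint α ∧
  ∀ (B : Type) [CStarAlgebra B] (β : B →⋆ₐ[ℂ] B) (ι : A →⋆ₐ[ℂ] B),
    (∀ a, β (ι a) = ι (α a)) →
    (Submodule.span ℂ {x : B | ∃ a v w, Eigenvector β v ∧ Eigenvector β w ∧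
      x = v * ι a * w}).topologicalClosure = ⊤ →
    MobiusDisjoint β ∧
    ∀ (W : Type) [CStarAlgebra W] (γ : W →⋆ₐ[ℂ] W) (κ : W →⋆ₐ[ℂ] B), Function.Injective κ →
      (∀ w, κ (γ w) = β (κ w)) → MobiusDisjoint γ

/-- `(A, u, τ)` is the reduced C*-algebra of the group `G`, twisted by a cocycle with values in the
circle: the `u g` are unitaries which multiply like the elements of `G` up to scalars of modulus
one, their span is dense in `A`, and the functional `τ` has value one at `1`, zero at each `u g` with
`g ≠ 1`, and a positive value at `a* a` for each `a ≠ 0`. -/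
structure RedAlg {A G : Type} [CStarAlgebra A] [Group G] (u : G → A) (τ : A →L[ℂ] ℂ) : Prop where
  unit : ∀ g, u g ∈ unitary A
  mul : ∀ g h, ∃ c : ℂ, ‖c‖ = 1 ∧ u (g * h) = c • (u g * u h)
  dense : (Submodule.span ℂ (Set.range u)).topologicalClosure = ⊤
  one : τ 1 = 1
  zero : ∀ g, g ≠ 1 → τ (u g) = 0
  pos : ∀ a : A, a ≠ 0 → ∃ r : ℝ, 0 < r ∧ τ (star a * a) = r

/-- `α` covers the automorphism `σ` of `G`: it maps each `u g` to a multiple, by a scalar of modulus
one, of `u (σ g)` -/
def Covers {A G : Type} [CStarAlgebra A] [Group G] (u : G → A) (σ : MulAut G) (α : A →⋆ₐ[ℂ] A) :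
    Prop :=
  ∀ g : G, ∃ c : ℂ, ‖c‖ = 1 ∧ α (u g) = c • u (σ g)

/-- the homomorphism `F₂ → Γ` which maps the generators to `a`, `b` is injective -/
def FreePair {Γ : Type} [Group Γ] (a b : Γ) : Prop :=
  Function.Injective (FreeGroup.lift ![a, b])

/-- any two elements have powers which commute or freely generate a free group -/
def HasPowerAlternative (Γ : Type) [Group Γ] : Prop :=
  ∀ a b : Γ, ∃ n : ℕ, 1 ≤ n ∧ (Commute (a ^ n) (b ^ n) ∨ FreePair (a ^ n) (b ^ n))

/-- an action on a tree without inversions -/
structure TreeAction (G : Type) {V : Type} [Group G] [MulAction G V] (T : SimpleGraph V) :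
    Prop where
  isTree : T.IsTree
  adj : ∀ (g : G) (v w : V), T.Adj v w → T.Adj (g • v) (g • w)
  noInv : ∀ (g : G) (v w : V), T.Adj v w → ¬ (g • v = w ∧ g • w = v)

/-- the mapping torus `G ⋊ ℤ` of the automorphism `σ` -/
abbrev Torus {G : Type} [Group G] (σ : MulAut G) : Type :=
  G ⋊[zpowersHom (MulAut G) σ] Multiplicative ℤ

/-- the free product of `G` and the free group of rank `N` -/
abbrev Ext (G : Type) [Group G] (N : ℕ) : Type := Coprod G (FreeGroup (Fin N))

/-- the free generators of `Ext G N` -/
abbrev letter (G : Type) [Group G] (N : ℕ) (i : Fin N) : Ext G N := Coprod.inr (FreeGroup.of i)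

/-- the subgroup of `Ext G N` generated by `G` and the first `n` free generators -/
def level (G : Type) [Group G] (N n : ℕ) : Subgroup (Ext G N) :=
  Subgroup.closure (Set.range (Coprod.inl : G →* Ext G N) ∪
    {x | ∃ i : Fin N, (i : ℕ) < n ∧ x = letter G N i})

/-- the automorphism `σ'` of the free product of `G` and a free group extends the automorphism `σ` of
`G` and it maps each free generator `b` to `u b v`, where `u`, `v` are in the subgroup generated
by `G` and the preceding free generators -/
def TriangularOver {G : Type} [Group G] {N : ℕ} (σ : MulAut G) (σ' : MulAut (Ext G N)) : Prop :=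
  (∀ x, σ' (Coprod.inl x) = Coprod.inl (σ x)) ∧
  ∀ i : Fin N, ∃ u ∈ level G N i, ∃ v ∈ level G N i, σ' (letter G N i) = u * letter G N i * v

/-- the automorphism `σ` of the free product is `σ₁` on the first factor and `σ₂` followed by
conjugation by the element `v` of the first factor on the second factor -/
def PartialConj {G₁ G₂ : Type} [Group G₁] [Group G₂] (σ₁ : MulAut G₁) (σ₂ : MulAut G₂) (v : G₁)
    (σ : MulAut (Coprod G₁ G₂)) : Prop :=
  (∀ x, σ (Coprod.inl x) = Coprod.inl (σ₁ x)) ∧
  ∀ x, σ (Coprod.inr x) = Coprod.inl v * Coprod.inr (σ₂ x) * Coprod.inl v⁻¹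

/-- The smallest class of automorphisms of groups (which are free groups of finite rank) which
contains the automorphism of the trivial group and is closed under the extension by stable letters,
free products with partial conjugation, composition with inner automorphisms, and isomorphisms.
These are the automorphisms represented by upper triangular homotopy equivalences of finite
graphs. -/
inductive Unipotent : ∀ (F : Type) [Group F], MulAut F → Prop
  | trivial : Unipotent PUnit 1
  | letters {F : Type} [Group F] {N : ℕ} (σ : MulAut F) (σ' : MulAut (Ext F N)) :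
      Unipotent F σ → TriangularOver σ σ' → Unipotent (Ext F N) σ'
  | freeProduct {F₁ F₂ : Type} [Group F₁] [Group F₂] (σ₁ : MulAut F₁) (σ₂ : MulAut F₂) (v : F₁)
      (σ : MulAut (Coprod F₁ F₂)) :
      Unipotent F₁ σ₁ → Unipotent F₂ σ₂ → PartialConj σ₁ σ₂ v σ → Unipotent (Coprod F₁ F₂) σ
  | inner {F : Type} [Group F] (σ : MulAut F) (w : F) :
      Unipotent F σ → Unipotent F (MulAut.conj w * σ)
  | iso {F F' : Type} [Group F] [Group F'] (e : F ≃* F') (σ : MulAut F) :
      Unipotent F σ → Unipotent F' (MulAut.congr e σ)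

/-- some power `σ ^ k`, `k > 0`, agrees on a subgroup `H` of finite index, up to conjugation by an
element of `G`, with a unipotent automorphism of `H` -/
def VirtuallyUnipotent {G : Type} [Group G] (σ : MulAut G) : Prop :=
  ∃ (H : Subgroup G) (φ : MulAut H) (k : ℕ) (w : G), H.index ≠ 0 ∧ 0 < k ∧ Unipotent H φ ∧
    ∀ x : H, (σ ^ k) (x : G) = w * (φ x : G) * w⁻¹

/-- no element of the kernel of `τ`, other than `1`, fixes an edge -/
def EdgeInjective {G V P : Type} [Group G] [MulAction G V] [Group P] (T : SimpleGraph V)
    (τ : G →* P) : Prop :=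
  ∀ v w, T.Adj v w → ∀ g : G, g • v = v → g • w = w → τ g = 1 → g = 1

/-- classes of pairs of a group and an automorphism -/
abbrev AutClass : Type 1 := ∀ (G : Type) [Group G], MulAut G → Prop

/-- the pairs whose mapping torus has the power alternative -/
def ClassP : AutClass := fun _ _ σ => HasPowerAlternative (Torus σ)

/-- closed under triangular extensions -/
def ClosedTriangular (C : AutClass) : Prop :=
  ∀ (G : Type) [Group G] (σ : MulAut G) (N : ℕ) (σ' : MulAut (Ext G N)),
    C G σ → TriangularOver σ σ' → C (Ext G N) σ'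

/-- closed under free products with partial conjugation -/
def ClosedFreeProduct (C : AutClass) : Prop :=
  ∀ (G₁ G₂ : Type) [Group G₁] [Group G₂] (σ₁ : MulAut G₁) (σ₂ : MulAut G₂) (v : G₁)
    (σ : MulAut (Coprod G₁ G₂)), C G₁ σ₁ → C G₂ σ₂ → PartialConj σ₁ σ₂ v σ → C (Coprod G₁ G₂) σ

/-- closed under direct products -/
def ClosedProduct (C : AutClass) : Prop :=
  ∀ (G₁ G₂ : Type) [Group G₁] [Group G₂] (σ₁ : MulAut G₁) (σ₂ : MulAut G₂),
    C G₁ σ₁ → C G₂ σ₂ → C (G₁ × G₂) (MulEquiv.prodCongr σ₁ σ₂)

/-- closed under equivariant embeddings -/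
def ClosedEmbedding (C : AutClass) : Prop :=
  ∀ (G G' : Type) [Group G] [Group G'] (σ : MulAut G) (σ' : MulAut G') (j : G →* G'),
    Function.Injective j → (∀ x, j (σ x) = σ' (j x)) → C G' σ' → C G σ

/-- closed under the passage from `(H, φ)` to `(G, σ)`, if `H` has finite index in `G` and some power
`σ ^ k`, `k > 0`, agrees on `H` with `φ` up to conjugation by an element of `G` -/
def ClosedVirtual (C : AutClass) : Prop :=
  ∀ (G : Type) [Group G] (σ : MulAut G) (H : Subgroup G) (φ : MulAut H) (k : ℕ) (w : G),
    H.index ≠ 0 → 0 < k → (∀ x : H, (σ ^ k) (x : G) = w * (φ x : G) * w⁻¹) → C H φ → C G σ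

open Pool.Agent.H258.PA Pool.Agent.H258.TR

theorem mobiusDisjoint_of {U : Type} [CStarAlgebra U] {α : U →⋆ₐ[ℂ] U} (h : ∀ x, UD α x) :
    MobiusDisjoint α := fun x => ⟨(h x).icc, (h x).fun⟩

theorem allDisjoint_of {A : Type} [CStarAlgebra A] {α : A →⋆ₐ[ℂ] A} (h : ∀ x, UD α x) :
    AllDisjoint α := by
  refine ⟨mobiusDisjoint_of h, fun B _ β ι hι hgen => ?_⟩
  have hB : ∀ x, UD β x := by
    intro x
    refine UD.closed β (S := {x : B | ∃ a v w, Eigenvector β v ∧ Eigenvector β w ∧
      x = v * ι a * w}) ?_ x (by rw [hgen]; trivial)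
    rintro _ ⟨a, v, w, hv, hw, rfl⟩
    exact UD.ext (h a) β ι hι hv hw
  exact ⟨mobiusDisjoint_of hB, fun W _ γ κ hκ hγ => mobiusDisjoint_of fun w =>
    UD.embed γ κ hκ hγ (hB _)⟩

/-- **the tree theorem** -/
theorem tree (G V P : Type) [Group G] [MulAction G V] [CommGroup P] (T : SimpleGraph V)
    (τ : G →* P) (h : TreeAction G T)
    (hE : ∀ v w, T.Adj v w → ∀ g : G, g • v = v → g • w = w → τ g = 1 → g = 1)
    (hV : ∀ v : V, HasPowerAlternative (MulAction.stabilizer G v)) : HasPowerAlternative G := by
  refine fun a b => pat_of_tree (T := T) (τ := τ) hE ⟨h.isTree, h.adj, h.noInv⟩ ?_ a b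
  intro v a b ha hb
  exact PAt.map (MulAction.stabilizer G v).subtype (MulAction.stabilizer G v).subtype_injective
    (hV v ⟨a, ha⟩ ⟨b, hb⟩)

theorem torus_inner {F : Type} [Group F] (σ : MulAut F) (w : F)
    (h : HasPowerAlternative (Torus σ)) : HasPowerAlternative (Torus (MulAut.conj w * σ)) := by
  have h1 : HasPowerAlternative (Torus (MulAut.congr (Subgroup.topEquiv (G := F)).symm σ)) :=
    pa_embed (σ' := σ) (Subgroup.topEquiv (G := F)).toMonoidHom
      (Subgroup.topEquiv (G := F)).injective (fun x => by
        simp [MulAut.congr]) h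
  refine pa_tor_virtual _ ⊤ (by simp) _ one_pos w ?_ h1
  intro x
  simp [MulAut.congr]

theorem torus_of_unipotent {F : Type} [Group F] {σ : MulAut F} (h : Unipotent F σ) :
    HasPowerAlternative (Torus σ) := by
  induction h with
  | trivial =>
    refine pa_comm fun a b => ?_
    refine SemidirectProduct.ext (Subsingleton.elim _ _) ?_
    rw [SemidirectProduct.mul_right, SemidirectProduct.mul_right, mul_comm]
  | letters σ σ' _ h2 ih => exact pa_tor h2 ih
  | freeProduct σ₁ σ₂ v σ _ _ h3 ih1 ih2 => exact pa_tor_coprod ih1 ih2 v σ h3.1 h3.2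
  | inner σ w _ ih => exact torus_inner σ w ih
  | iso e σ _ ih =>
    exact pa_embed (σ' := σ) e.symm.toMonoidHom e.symm.injective (fun x => by
      simp [MulAut.congr]) ih

theorem torus_of_virtuallyUnipotent {G : Type} [Group G] {σ : MulAut G}
    (h : VirtuallyUnipotent σ) : HasPowerAlternative (Torus σ) := by
  obtain ⟨H, φ, k, w, hH, hk, hφ, hw⟩ := h
  exact pa_tor_virtual σ H hH φ hk w hw (torus_of_unipotent hφ)

theorem disjoint_of_torus (A G : Type) [CStarAlgebra A] [Group G] (u : G → A)
    (τ : A →L[ℂ] ℂ) (hu : RedAlg u τ) (σ : MulAut G) (α : A →⋆ₐ[ℂ] A) (hα : Covers u σ α)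
    (h : HasPowerAlternative (Torus σ)) : AllDisjoint α := by
  have hu' : Pool.Agent.W726.NS.RedAlg u τ := ⟨hu.unit, hu.mul, hu.dense, hu.one, hu.zero, hu.pos⟩
  refine allDisjoint_of fun x => ?_
  refine UD.closed α (S := Set.range u) ?_ x (by rw [hu.dense]; trivial)
  rintro _ ⟨g, rfl⟩
  refine ud_alt hu' hα g (alt_of_pa (k := 1) one_pos SemidirectProduct.inl
    SemidirectProduct.inl_injective (SemidirectProduct.inr gen) ?_ g (h _ _))
  intro x
  rw [pow_one, inr_inl, mul_inv_cancel_right]

/-- **The power alternative for mapping tori, and Möbius disjointness.**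

(1) Let `G` act without inversions on a tree, and let `τ` be a homomorphism to an abelian group such
that no element of its kernel other than `1` fixes an edge. If the stabilisers of the vertices have
the power alternative then so does `G`.

(2) Let `𝒫` be the class of the pairs of a group `G` and an automorphism `σ` of `G` for which the
mapping torus `G ⋊ ℤ` has the power alternative. It is closed under triangular extensions to the
free product with a free group of finite rank; free products with partial conjugation; direct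
products; equivariant embeddings; and `(G, σ)` is in `𝒫` if some power `σᵏ`, `k > 0`, agrees on a
subgroup `H` of finite index, up to a conjugation, with `φ` for some `(H, φ)` in `𝒫`.

(3) So `𝒫` contains the virtually unipotent automorphisms.

(4) Let `(G, σ)` be in `𝒫`, for example `σ` a virtually unipotent automorphism of `G`. Let `A` be
the reduced C*-algebra of `G`, possibly twisted by a cocycle. Every endomorphism of `A` which covers
`σ` is Möbius disjoint, in norm and uniformly over all rotations, and so is each system generated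
by it over eigenvectors, and each subsystem of such a system. -/
theorem result :
    (∀ (G V P : Type) [Group G] [MulAction G V] [CommGroup P] (T : SimpleGraph V) (τ : G →* P),
      TreeAction G T → EdgeInjective T τ →
      (∀ v : V, HasPowerAlternative (MulAction.stabilizer G v)) → HasPowerAlternative G) ∧
    (ClosedTriangular ClassP ∧ ClosedFreeProduct ClassP ∧ ClosedProduct ClassP ∧
      ClosedEmbedding ClassP ∧ ClosedVirtual ClassP) ∧
    (∀ (G : Type) [Group G] (σ : MulAut G), VirtuallyUnipotent σ → ClassP G σ) ∧
    (∀ (A G : Type) [CStarAlgebra A] [Group G] (u : G → A) (τ : A →L[ℂ] ℂ), RedAlg u τ →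
      ∀ (σ : MulAut G) (α : A →⋆ₐ[ℂ] A), Covers u σ α → ClassP G σ → AllDisjoint α) :=
  ⟨fun G V P _ _ _ T τ h hE hV => tree G V P T τ h hE hV,
    ⟨fun _ _ _ _ _ h hT => pa_tor hT h,
      fun _ _ _ _ _ _ v σ h₁ h₂ h => pa_tor_coprod h₁ h₂ v σ h.1 h.2,
      fun _ _ _ _ _ _ h₁ h₂ => pa_tor_prod h₁ h₂,
      fun _ _ _ _ _ _ j hj h hP => pa_embed j hj h hP,
      fun _ _ σ H φ _ w hH hk hw hP => pa_tor_virtual σ H hH φ hk w hw hP⟩,
    fun _ _ _ h => torus_of_virtuallyUnipotent h,
    fun A G _ _ u τ hu σ α hα h => disjoint_of_torus A G u τ hu σ α hα h⟩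

/-- The reduced C*-algebra of `G`, as the closed `*`-algebra generated by the left translations
`lam g` of `ℓ²(G)`, with its canonical trace, is an example. -/
theorem regular (G : Type) [Group G] :
    RedAlg (Pool.Agent.W726.NS.lam : G → Pool.Agent.H379R3.CS.reducedCStar G)
      (Pool.Agent.W726.NS.trc G) :=
  have h := Pool.Agent.W726.NS.redAlg_regular G
  ⟨h.unit, h.mul, h.dense, h.one, h.zero, h.pos⟩

end Pool.Agent.Results.MP_7a8f48_an.MappingTori
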