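import Pool.Agent.H258.PA.Main
import Pool.Agent.H258.PA.Raag
import Pool.Graph.R_seed8.W726.NS.Reg

/-!
# Möbius disjointness in reduced C*-algebras of groups with the power alternative (helper258)

A group has the power alternative if any two elements have powers `a ^ n`, `b ^ n`, `n ≥ 1`, which
commute or freely generate a free group. This holds for right-angled Artin groups (Baudisch) and
the groups virtually embedded in them, which is proved here, and for mapping class groups,
hyperbolic groups and many others. For these groups we treat the inner automorphisms, and all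
automorphisms with an inner power, of the reduced C*-algebra, possibly twisted by a cocycle; and,
for subgroups, the automorphisms induced by conjugation in an overgroup.
-/

set_option autoImplicit false

open Filter Topology

namespace Pool.Agent.Results.MP_7a8f48_an.PowerAlternative

/-- Möbius disjointness of a unital `*`-endomorphism `α`: for each `x` the sums of
`μ(n) zⁿ αⁿ(x)`, `n ≤ N`, are `o(N)` in norm, uniformly over all `z` of modulus one; and the averages
of `μ(n) ρ(αⁿ x)` tend to zero for each bounded functional `ρ`. -/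
def MobiusDisjoint {U : Type} [CStarAlgebra U] (α : U →⋆ₐ[ℂ] U) : Prop :=
  ∀ x : U,
    (∀ ε : ℝ, 0 < ε → ∃ N₀ : ℕ, ∀ N ≥ N₀, ∀ z : ℂ, ‖z‖ = 1 →
      ‖∑ n ∈ Finset.Icc 1 N, (((ArithmeticFunction.moebius n : ℤ) : ℂ) * z ^ n) • (α^[n]) x‖
        ≤ ε * N) ∧
    ∀ ρ : U →L[ℂ] ℂ, Tendsto (fun N : ℕ => (1 / (N : ℂ)) *
      ∑ n ∈ Finset.Icc 1 N, ((ArithmeticFunction.moebius n : ℤ) : ℂ) * ρ ((α^[n]) x)) atTop (𝓝 0)

/-- `w` is an eigenvector of `β` with an eigenvalue of modulus one -/
def Eigenvector {B : Type} [CStarAlgebra B] (β : B →⋆ₐ[ℂ] B) (w : B) : Prop :=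
  ∃ l : ℂ, ‖l‖ = 1 ∧ β w = l • w

/-- `α` is Möbius disjoint, together with each system `(B, β)` which is generated over eigenvectors
of `β` by an equivariant image of `(A, α)` (the products `v * ι a * w` with eigenvectors `v`, `w` of
`β` span a dense subspace of `B`), and together with each system `(W, γ)` which embeds in such a
`(B, β)`. With `B = A` this contains the restrictions of `α` to invariant C*-subalgebras; another
example of `(B, β)` is the crossed product of `A` by `α` with the inner automorphism. -/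
def AllDisjoint {A : Type} [CStarAlgebra A] (α : A →⋆ₐ[ℂ] A) : Prop :=
  MobiusDisjoint α ∧
  ∀ (B : Type) [CStarAlgebra B] (β : B →⋆ₐ[ℂ] B) (ι : A →⋆ₐ[ℂ] B),
    (∀ a, β (ι a) = ι (α a)) →
    (Submodule.span ℂ {x : B | ∃ a v w, Eigenvector β v ∧ Eigenvector β w ∧
      x = v * ι a * w}).topologicalClosure = ⊤ →
    MobiusDisjoint β ∧
    ∀ (W : Type) [CStarAlgebra W] (γ : W →⋆ₐ[ℂ] W) (κ : W →⋆ₐ[ℂ] B), Function.Injective κ →
      (∀ w, κ (γ w) = β (κ w)) → MobiusDisjoint γ

/-- `(A, u, τ)` is the reduced C*-algebra of the group `G`, twisted by a cocycle with values in the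
circle: the `u g` are unitaries which multiply like the elements of `G` up to scalars of modulus
one, their span is dense in `A`, and the functional `τ` has value one at `1`, zero at each `u g` with
`g ≠ 1`, and a positive value at `a* a` for each `a ≠ 0`. -/
structure RedAlg {A G : Type} [CStarAlgebra A] [Group G] (u : G → A) (τ : A →L[ℂ] ℂ) : Prop where
  unit : ∀ g, u g ∈ unitary A
  mul : ∀ g h, ∃ c : ℂ, ‖c‖ = 1 ∧ u (g * h) = c • (u g * u h)
  dense : (Submodule.span ℂ (Set.range u)).topologicalClosure = ⊤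
  one : τ 1 = 1
  zero : ∀ g, g ≠ 1 → τ (u g) = 0
  pos : ∀ a : A, a ≠ 0 → ∃ r : ℝ, 0 < r ∧ τ (star a * a) = r

/-- `α` covers the automorphism `σ` of `G`: it maps each `u g` to a multiple, by a scalar of modulus
one, of `u (σ g)` -/
def Covers {A G : Type} [CStarAlgebra A] [Group G] (u : G → A) (σ : MulAut G) (α : A →⋆ₐ[ℂ] A) :
    Prop :=
  ∀ g : G, ∃ c : ℂ, ‖c‖ = 1 ∧ α (u g) = c • u (σ g)

/-- the homomorphism `F₂ → Γ` which maps the generators to `a`, `b` is injective -/
def FreePair {Γ : Type} [Group Γ] (a b : Γ) : Prop :=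
  Function.Injective (FreeGroup.lift ![a, b])

/-- any two elements have powers which commute or freely generate a free group -/
def HasPowerAlternative (Γ : Type) [Group Γ] : Prop :=
  ∀ a b : Γ, ∃ n : ℕ, 1 ≤ n ∧ (Commute (a ^ n) (b ^ n) ∨ FreePair (a ^ n) (b ^ n))

/-- some power `σ ^ k`, `k > 0`, is induced by conjugation by an element `t` of the group `Γ`, in
which `G` is embedded by `j` -/
def InducedBy {G Γ : Type} [Group G] [Group Γ] (σ : MulAut G) (j : G →* Γ) (t : Γ) : Prop :=
  Function.Injective j ∧ ∃ k : ℕ, 0 < k ∧ ∀ x, j ((σ ^ k) x) = t * j x * t⁻¹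

/-- the alternative at the element `g`, for the automorphism `σ`: for some `k > 0` either
`g⁻¹ σᵏ(g)` is fixed by `σᵏ`, or there is a homomorphism `j` from `G` to a group, not necessarily
injective, and an element `t` of this group such that `σᵏ` becomes conjugation by `t` and `t` and
its conjugate by `j g` freely generate a free group -/
def AlternativeAt {G : Type} [Group G] (σ : MulAut G) (g : G) : Prop :=
  ∃ k : ℕ, 0 < k ∧ ((σ ^ k) (g⁻¹ * (σ ^ k) g) = g⁻¹ * (σ ^ k) g ∨
    ∃ (Γ : Type) (_ : Group Γ) (j : G →* Γ) (t : Γ), (∀ x, j ((σ ^ k) x) = t * j x * t⁻¹) ∧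
      FreePair ((j g)⁻¹ * t * j g) t)

/-- the right-angled Artin group of a graph with an arbitrary set of vertices: adjacent vertices
commute -/
abbrev RAAG {V : Type} (E : SimpleGraph V) : Type :=
  PresentedGroup {r : FreeGroup V | ∃ a b, E.Adj a b ∧
    r = FreeGroup.of a * FreeGroup.of b * (FreeGroup.of a)⁻¹ * (FreeGroup.of b)⁻¹}

/-- a subgroup of finite index embeds in a right-angled Artin group -/
def VirtuallyRAAG (Γ : Type) [Group Γ] : Prop :=
  ∃ (V : Type) (E : SimpleGraph V) (H : Subgroup Γ) (f : H →* RAAG E),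
    H.index ≠ 0 ∧ Function.Injective f

open Pool.Agent.H258.PA

theorem mobiusDisjoint_of {U : Type} [CStarAlgebra U] {α : U →⋆ₐ[ℂ] U} (h : ∀ x, UD α x) :
    MobiusDisjoint α := fun x => ⟨(h x).icc, (h x).fun⟩

theorem allDisjoint_of {A : Type} [CStarAlgebra A] {α : A →⋆ₐ[ℂ] A} (h : ∀ x, UD α x) :
    AllDisjoint α := by
  refine ⟨mobiusDisjoint_of h, fun B _ β ι hι hgen => ?_⟩
  have hB : ∀ x, UD β x := by
    intro x
    refine UD.closed β (S := {x : B | ∃ a v w, Eigenvector β v ∧ Eigenvector β w ∧
      x = v * ι a * w}) ?_ x (by rw [hgen]; trivial)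
    rintro _ ⟨a, v, w, hv, hw, rfl⟩
    exact UD.ext (h a) β ι hι hv hw
  exact ⟨mobiusDisjoint_of hB, fun W _ γ κ hκ hγ => mobiusDisjoint_of fun w =>
    UD.embed γ κ hκ hγ (hB _)⟩

/-- the criterion -/
theorem criterion (A G : Type) [CStarAlgebra A] [Group G] (u : G → A) (τ : A →L[ℂ] ℂ)
    (hu : RedAlg u τ) (σ : MulAut G) (α : A →⋆ₐ[ℂ] A) (hα : Covers u σ α)
    (hσ : ∀ g, AlternativeAt σ g) : AllDisjoint α := by
  have hu' : Pool.Agent.W726.NS.RedAlg u τ := ⟨hu.unit, hu.mul, hu.dense, hu.one, hu.zero, hu.pos⟩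
  refine allDisjoint_of fun x => ?_
  refine UD.closed α (S := Set.range u) ?_ x (by rw [hu.dense]; trivial)
  rintro _ ⟨g, rfl⟩
  exact ud_alt hu' hα g (hσ g)

/-- groups with the power alternative -/
theorem of_alternative (A G Γ : Type) [CStarAlgebra A] [Group G] [Group Γ] (u : G → A)
    (τ : A →L[ℂ] ℂ) (hu : RedAlg u τ) (σ : MulAut G) (α : A →⋆ₐ[ℂ] A) (hα : Covers u σ α)
    (hΓ : HasPowerAlternative Γ) (j : G →* Γ) (t : Γ) (hσ : InducedBy σ j t) : AllDisjoint α := by
  obtain ⟨hj, k, hk, ht⟩ := hσ
  exact criterion A G u τ hu σ α hα fun g => alt_of_pa hk j hj t ht g (hΓ _ _)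

/-- **Baudisch's theorem**, for graphs with an arbitrary set of vertices and virtual subgroups -/
theorem powerAlternative (Γ : Type) [Group Γ] (h : VirtuallyRAAG Γ) : HasPowerAlternative Γ := by
  obtain ⟨V, E, H, f, hH, hf⟩ := h
  exact pa_of_finiteIndex H hH (pa_of_injective f hf (pa_raag E.Adj))

/-- **Möbius disjointness in reduced C*-algebras of groups with the power alternative.**

Let `A` be the reduced C*-algebra of the group `G`, possibly twisted by a cocycle, and let `α` be an
endomorphism of `A` which covers the automorphism `σ` of `G`. Then `α` is Möbius disjoint, in norm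
and uniformly over all rotations, and so is each system generated by it over eigenvectors, and
each subsystem of such a system, in each of the following cases.

(1) Each element `g` of `G` satisfies the alternative: for some `k > 0` either `g⁻¹ σᵏ(g)` is fixed
by `σᵏ`, or in some group, to which `G` is mapped, `σᵏ` is conjugation by an element which freely
generates a free group with its conjugate by the image of `g`.

(2) `G` is a subgroup of a group `Γ` with the power alternative and some power `σᵏ`, `k > 0`, is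
induced by conjugation by an element of `Γ`. (For example `Γ = G` and `σ` is inner, or of finite
order modulo inner automorphisms; or `Γ` is the semidirect product of `G` and `ℤ` by means
of `σ`.)

(3) This applies in particular if a subgroup of finite index of `Γ` embeds in a right-angled
Artin group. -/
theorem result :
    (∀ (A G : Type) [CStarAlgebra A] [Group G] (u : G → A) (τ : A →L[ℂ] ℂ), RedAlg u τ →
      ∀ (σ : MulAut G) (α : A →⋆ₐ[ℂ] A), Covers u σ α → (∀ g, AlternativeAt σ g) →
      AllDisjoint α) ∧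
    (∀ (A G Γ : Type) [CStarAlgebra A] [Group G] [Group Γ] (u : G → A) (τ : A →L[ℂ] ℂ),
      RedAlg u τ → ∀ (σ : MulAut G) (α : A →⋆ₐ[ℂ] A), Covers u σ α → HasPowerAlternative Γ →
      ∀ (j : G →* Γ) (t : Γ), InducedBy σ j t → AllDisjoint α) ∧
    (∀ (A G Γ : Type) [CStarAlgebra A] [Group G] [Group Γ] (u : G → A) (τ : A →L[ℂ] ℂ),
      RedAlg u τ → ∀ (σ : MulAut G) (α : A →⋆ₐ[ℂ] A), Covers u σ α → VirtuallyRAAG Γ →
      ∀ (j : G →* Γ) (t : Γ), InducedBy σ j t → AllDisjoint α) :=
  ⟨fun A G _ _ u τ hu σ α hα hσ => criterion A G u τ hu σ α hα hσ,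
    fun A G Γ _ _ _ u τ hu σ α hα hΓ j t hσ => of_alternative A G Γ u τ hu σ α hα hΓ j t hσ,
    fun A G Γ _ _ _ u τ hu σ α hα hΓ j t hσ =>
      of_alternative A G Γ u τ hu σ α hα (powerAlternative Γ hΓ) j t hσ⟩

/-- The reduced C*-algebra of `G`, as the closed `*`-algebra generated by the left translations
`lam g` of `ℓ²(G)`, with its canonical trace, is an example. -/
theorem regular (G : Type) [Group G] :
    RedAlg (Pool.Agent.W726.NS.lam : G → Pool.Agent.H379R3.CS.reducedCStar G)
      (Pool.Agent.W726.NS.trc G) :=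
  have h := Pool.Agent.W726.NS.redAlg_regular G
  ⟨h.unit, h.mul, h.dense, h.one, h.zero, h.pos⟩

end Pool.Agent.Results.MP_7a8f48_an.PowerAlternative
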