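import Pool.Agent.H258.RH.Fin
import Pool.Agent.H258.RH.EntG

/-!
# Möbius disjointness for zero entropy automorphisms of toral relatively hyperbolic groups (helper258)

Let `G` be a countable torsion-free group which acts on an infinite compact Hausdorff space as a
convergence group with abelian point stabilisers, and in which the centralisers of the nontrivial
elements are finitely generated. Examples are the toral relatively hyperbolic groups and all their
subgroups (for instance limit groups), and all torsion-free discrete subgroups of `PSL(2, ℂ)`.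

We prove Q1 for the automorphisms `α` of the reduced C*-algebra of `G` which cover automorphisms `σ`
of `G`: if `α` has zero entropy then it is Möbius disjoint. The hypothesis on the entropy is used: it
is equivalent to a condition on the maximal abelian subgroups, namely that `σ` is quasi-unipotent on
those non-cyclic centralisers which it permutes periodically (a restriction to such a subgroup is
dual to a toral automorphism, which need not be Möbius disjoint). Under this condition Möbius
disjointness also holds for the twisted algebras.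
-/

set_option autoImplicit false

open Filter Topology

namespace Pool.Agent.Results.MP_7a8f48_an.RelativelyHyperbolic

/-- the Möbius function with complex values -/
noncomputable def mu (n : ℕ) : ℂ := ((ArithmeticFunction.moebius n : ℤ) : ℂ)

/-- Möbius disjointness of a unital `*`-endomorphism `γ`: the averages of `μ(n) π(γⁿ x)` tend to zero
in the strong operator topology of each representation, and the averages of `μ(n) zⁿ ρ(γⁿ x)` tend
to zero for each bounded functional `ρ` and each rotation `z` of modulus one. -/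
def MobiusDisjoint {W : Type} [CStarAlgebra W] (γ : W →⋆ₐ[ℂ] W) : Prop :=
  ∀ x : W,
    (∀ (K : Type) [NormedAddCommGroup K] [InnerProductSpace ℂ K] [CompleteSpace K]
      (π : W →⋆ₐ[ℂ] (K →L[ℂ] K)) (ξ : K),
      Tendsto (fun N : ℕ => (1 / (N : ℂ)) • ∑ n ∈ Finset.Icc 1 N, mu n • π ((γ^[n]) x) ξ)
        atTop (𝓝 0)) ∧
    ∀ (z : ℂ) (ρ : W →L[ℂ] ℂ), ‖z‖ = 1 → Tendsto (fun N : ℕ => (1 / (N : ℂ)) *
      ∑ n ∈ Finset.Icc 1 N, mu n * z ^ n * ρ ((γ^[n]) x)) atTop (𝓝 0)

/-- `w` is an eigenvector of `β` with an eigenvalue of modulus one -/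
def Eigenvector {B : Type} [CStarAlgebra B] (β : B →⋆ₐ[ℂ] B) (w : B) : Prop :=
  ∃ l : ℂ, ‖l‖ = 1 ∧ β w = l • w

/-- `α` is Möbius disjoint, together with each system `(B, β)` which is generated over eigenvectors
of `β` by an equivariant image of `(A, α)` (the products `v * ι a * w` with eigenvectors `v`, `w` of
`β` span a dense subspace of `B`), and together with each system `(W, γ)` which embeds in such a
`(B, β)`. With `B = A` this contains the restrictions of `α` to invariant C*-subalgebras; another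
example of `(B, β)` is the crossed product of `A` by `α` with the inner automorphism. -/
def AllDisjoint {A : Type} [CStarAlgebra A] (α : A →⋆ₐ[ℂ] A) : Prop :=
  MobiusDisjoint α ∧
  ∀ (B : Type) [CStarAlgebra B] (β : B →⋆ₐ[ℂ] B) (ι : A →⋆ₐ[ℂ] B),
    (∀ a, β (ι a) = ι (α a)) →
    (Submodule.span ℂ {x : B | ∃ a v w, Eigenvector β v ∧ Eigenvector β w ∧
      x = v * ι a * w}).topologicalClosure = ⊤ →
    MobiusDisjoint β ∧
    ∀ (W : Type) [CStarAlgebra W] (γ : W →⋆ₐ[ℂ] W) (κ : W →⋆ₐ[ℂ] B), Function.Injective κ →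
      (∀ w, κ (γ w) = β (κ w)) → MobiusDisjoint γ

/-- `(A, u, τ)` is the reduced C*-algebra of the group `G`, twisted by a cocycle with values in the
circle: the `u g` are unitaries which multiply like the elements of `G` up to scalars of modulus
one, their span is dense in `A`, and the functional `τ` has value one at `1`, zero at each `u g` with
`g ≠ 1`, and a positive value at `a* a` for each `a ≠ 0`. -/
structure RedAlg {A G : Type} [CStarAlgebra A] [Group G] (u : G → A) (τ : A →L[ℂ] ℂ) : Prop where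
  unit : ∀ g, u g ∈ unitary A
  mul : ∀ g h, ∃ c : ℂ, ‖c‖ = 1 ∧ u (g * h) = c • (u g * u h)
  dense : (Submodule.span ℂ (Set.range u)).topologicalClosure = ⊤
  one : τ 1 = 1
  zero : ∀ g, g ≠ 1 → τ (u g) = 0
  pos : ∀ a : A, a ≠ 0 → ∃ r : ℝ, 0 < r ∧ τ (star a * a) = r

/-- `α` covers the automorphism `σ` of `G`: it maps each `u g` to a multiple, by a scalar of modulus
one, of `u (σ g)` -/
def Covers {A G : Type} [CStarAlgebra A] [Group G] (u : G → A) (σ : MulAut G) (α : A →⋆ₐ[ℂ] A) :
    Prop :=
  ∀ g : G, ∃ c : ℂ, ‖c‖ = 1 ∧ α (u g) = c • u (σ g)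

/-- `G` acts on `X` by homeomorphisms, as a convergence group: each sequence of distinct elements
has a subsequence which converges to a point `a`, uniformly off each neighbourhood of a point
`b`. -/
def ConvergenceAction (G X : Type) [Group G] [TopologicalSpace X] [MulAction G X] : Prop :=
  (∀ g : G, Continuous fun p : X => g • p) ∧
  ∀ x : ℕ → G, Function.Injective x → ∃ φ : ℕ → ℕ, StrictMono φ ∧ ∃ a b : X,
    ∀ U ∈ 𝓝 a, ∀ V ∈ 𝓝 b, ∀ᶠ n in atTop, ∀ p : X, p ∉ V → x (φ n) • p ∈ U

/-- any two elements of the stabiliser of a point commute -/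
def AbelianStabilisers (G X : Type) [Group G] [MulAction G X] : Prop :=
  ∀ p : X, ∀ a b : G, a • p = p → b • p = p → Commute a b

/-- `G` is torsion-free, or at least the centraliser of each nontrivial element is abelian -/
def TorsionFreeOrCT (G : Type) [Group G] : Prop :=
  (∀ g : G, g ≠ 1 → ¬ IsOfFinOrder g) ∨
    ∀ h : G, h ≠ 1 → ∀ x y : G, Commute x h → Commute y h → Commute x y

/-- the difference map of `σᵐ` -/
def diff {G : Type} [Group G] (σ : MulAut G) (m : ℕ) (g : G) : G := g⁻¹ * (σ ^ m) g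

/-- `σ` is quasi-unipotent on the periodic non-cyclic centralisers: if the centraliser `C` of `h ≠ 1`
is not cyclic and is mapped onto itself by `σ ^ D`, `D > 0`, then for each `c` in `C` there are
`q > 0` and `k` such that the `k`-th iterate of `x ↦ x⁻¹ σ^(D q)(x)` maps `c` to `1`. -/
def PeripherallyUnipotent {G : Type} [Group G] (σ : MulAut G) : Prop :=
  ∀ (h : G) (D : ℕ), h ≠ 1 → 0 < D → ¬ IsCyclic (Subgroup.centralizer {h}) →
    (∀ z, (σ ^ D) z ∈ Subgroup.centralizer {h} ↔ z ∈ Subgroup.centralizer {h}) →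
    ∀ c ∈ Subgroup.centralizer {h}, ∃ q : ℕ, 0 < q ∧ ∃ k : ℕ, ((diff σ (D * q))^[k]) c = 1

/-- `G` is torsion-free, and the centraliser of each nontrivial element is finitely generated -/
def Toral (G : Type) [Group G] : Prop :=
  (∀ g : G, g ≠ 1 → ¬ IsOfFinOrder g) ∧ ∀ h : G, h ≠ 1 → (Subgroup.centralizer {h}).FG

/-- the algebra of the complex `k × k` matrices, with the operator norm -/
abbrev Mat (k : ℕ) : Type := EuclideanSpace ℂ (Fin k) →L[ℂ] EuclideanSpace ℂ (Fin k)

/-- On the set `S`, the map `T` differs by less than `δ` from a composition of two linear contractions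
`A → V → E`. -/
def FactorsThrough (V : Type) [NormedAddCommGroup V] [NormedSpace ℂ V] {A E : Type}
    [NormedAddCommGroup A] [NormedSpace ℂ A] [NormedAddCommGroup E] [NormedSpace ℂ E] (T : A → E)
    (S : Set A) (δ : ℝ) : Prop :=
  ∃ (φ : A →ₗ[ℂ] V) (ψ : V →ₗ[ℂ] E), (∀ a, ‖φ a‖ ≤ ‖a‖) ∧ (∀ b, ‖ψ b‖ ≤ ‖b‖) ∧
    ∀ a ∈ S, ‖ψ (φ a) - T a‖ < δ

/-- the set `Ω ∪ f Ω ∪ ⋯ ∪ fⁿ⁻¹ Ω` -/
def segment {A : Type} (f : A → A) (Ω : Finset A) (n : ℕ) : Set A :=
  {x | ∃ a ∈ Ω, ∃ j : ℕ, j < n ∧ x = (f^[j]) a}

/-- for each finite set `Ω`, all `δ, h > 0` and all large `n`, the map `T` factors up to `δ` on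
`Ω ∪ f Ω ∪ ⋯ ∪ fⁿ⁻¹ Ω` through the `k × k` matrices by linear contractions, for some
`k ≤ exp (h n)` -/
def SmallRank {A E : Type} [NormedAddCommGroup A] [NormedSpace ℂ A] [NormedAddCommGroup E]
    [NormedSpace ℂ E] (f : A → A) (T : A → E) : Prop :=
  ∀ (Ω : Finset A) (δ h : ℝ), 0 < δ → 0 < h → ∀ᶠ n : ℕ in atTop, ∃ k : ℕ,
    (k : ℝ) ≤ Real.exp (h * n) ∧ FactorsThrough (Mat k) T (segment f Ω n) δ

/-- Zero entropy, for a faithful representation `π`: for each finite set `Ω`, all `δ, h > 0` and all
large `n` there are `k ≤ exp (h n)` and linear contractions `φ : A → M_k` and `ψ : M_k → B(K)` such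
that `ψ φ a` and `π a` have a distance less than `δ` for the elements `a` of
`Ω ∪ α Ω ∪ ⋯ ∪ αⁿ⁻¹ Ω`. If the Voiculescu-Brown entropy of `α` is zero then this holds with completely
positive contractions. -/
def ZeroEntropy {A : Type} [CStarAlgebra A] (α : A →⋆ₐ[ℂ] A) : Prop :=
  ∃ (K : Type) (_ : NormedAddCommGroup K) (_ : InnerProductSpace ℂ K) (_ : CompleteSpace K)
    (π : A →⋆ₐ[ℂ] (K →L[ℂ] K)), Function.Injective π ∧ SmallRank α π

open Pool.Agent.Helper188.NCM Pool.Agent.TH261.AB Pool.Agent.H258.RH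

theorem mobiusDisjoint_of {W : Type} [CStarAlgebra W] {γ : W →⋆ₐ[ℂ] W} (h : ∀ x, SD γ x) :
    MobiusDisjoint γ := by
  intro x
  constructor
  · intro K _ _ _ π ξ
    have h1 := h x 0 K π ξ
    have h2 : Tendsto (fun N : ℕ => (1 / (N : ℂ)) • ∑ n ∈ Finset.Icc 1 N,
        mob n • (ee ((n : ℝ) * 0) • π ((γ^[n]) x) ξ)) atTop (𝓝 0) :=
      vav_Icc (a := fun n => mob n • (ee ((n : ℝ) * 0) • π ((γ^[n]) x) ξ)) (by simp [mob]) h1
    refine h2.congr fun N => ?_
    congr 1
    refine Finset.sum_congr rfl fun n _ => ?_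
    rw [mul_zero, ee_zero, one_smul]
    rfl
  · intro z ρ hz
    obtain ⟨θ, rfl⟩ := exists_ee hz
    refine (SW.fun (sd_iff.1 (h x) θ) ρ).congr fun N => ?_
    congr 1
    refine Finset.sum_congr rfl fun n _ => ?_
    rw [wt, ee_nmul]
    rfl

theorem mobiusDisjoint_embed {B W : Type} [CStarAlgebra B] [CStarAlgebra W] {β : B →⋆ₐ[ℂ] B}
    (h : ∀ x, SD β x) (γ : W →⋆ₐ[ℂ] W) (κ : W →⋆ₐ[ℂ] B) (hκ : Function.Injective κ)
    (hγ : ∀ w, κ (γ w) = β (κ w)) : MobiusDisjoint γ := by
  have hgood : ∀ x, Good β x := by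
    intro x K _ _ _ π ξ
    refine (h x 0 K π ξ).congr fun N => ?_
    rw [vav, vav]
    congr 1
    refine Finset.sum_congr rfl fun n _ => ?_
    rw [mul_zero, ee_zero, one_smul]
  have hn : ∀ (n : ℕ) (w : W), κ ((γ^[n]) w) = (β^[n]) (κ w) := by
    intro n w
    induction n with
    | zero => rfl
    | succ n ih => rw [Function.iterate_succ_apply', Function.iterate_succ_apply', hγ, ih]
  intro x
  refine ⟨fun K _ _ _ π ξ => (Good.embed hgood γ κ hκ hγ x).rep K π ξ, fun z ρ hz => ?_⟩
  -- extension of the functional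
  let κl : W →ₗᵢ[ℂ] B := ⟨κ.toAlgHom.toLinearMap, fun x => NonUnitalStarAlgHom.norm_map κ hκ x⟩
  let e := κl.equivRange
  let p : Submodule ℂ B := LinearMap.range κl.toLinearMap
  obtain ⟨ψ, hψ, -⟩ := exists_extension_norm_eq p (ρ.comp
    (e.symm.toContinuousLinearEquiv : p →L[ℂ] W))
  have hψκ : ∀ x : W, ψ (κ x) = ρ x := by
    intro x
    have h1 := hψ (e x)
    have h2 : ((e x : p) : B) = κ x := rfl
    rw [h2] at h1
    rw [h1]
    simp
  refine (((mobiusDisjoint_of h) (κ x)).2 z ψ hz).congr fun N => ?_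
  congr 1
  refine Finset.sum_congr rfl fun n _ => ?_
  rw [← hn, hψκ]

theorem allDisjoint_of {A : Type} [CStarAlgebra A] {α : A →⋆ₐ[ℂ] A} (h : ∀ x, SD α x) :
    AllDisjoint α := by
  refine ⟨mobiusDisjoint_of h, fun B _ β ι hι hgen => ?_⟩
  have hB : ∀ x, SD β x := by
    intro x
    refine SD.of_span (S := {x : B | ∃ a v w, Eigenvector β v ∧ Eigenvector β w ∧
      x = v * ι a * w}) ?_ x (by rw [hgen]; trivial)
    rintro _ ⟨a, v, w, hv, hw, rfl⟩
    exact SD.ext (h a) β ι hι hv hw
  exact ⟨mobiusDisjoint_of hB, fun W _ γ κ hκ hγ => mobiusDisjoint_embed hB γ κ hκ hγ⟩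

theorem disjoint_of_unipotent (A G : Type) [CStarAlgebra A] [Group G] [Countable G] (u : G → A)
    (τ : A →L[ℂ] ℂ) (hu : RedAlg u τ) (X : Type) [TopologicalSpace X] [CompactSpace X] [T2Space X]
    [Infinite X] [MulAction G X] (hG : ConvergenceAction G X) (hab : AbelianStabilisers G X)
    (hct : TorsionFreeOrCT G) (σ : MulAut G) (hσ : PeripherallyUnipotent σ)
    (α : A →⋆ₐ[ℂ] A) (hα : Covers u σ α) : AllDisjoint α := by
  have hu' : Pool.Agent.W726.NS.RedAlg u τ := ⟨hu.unit, hu.mul, hu.dense, hu.one, hu.zero, hu.pos⟩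
  have hab' : ∀ p : X, ∀ a ∈ MulAction.stabilizer G p, ∀ b ∈ MulAction.stabilizer G p,
      Commute a b := fun p a ha b hb => hab p a b ha hb
  have ct : CT G := hct.elim (fun htf => ct_of_torsionFree (X := X) hG hab' htf) id
  have hQ : QUA σ := by
    intro h D hh hD hinv c hc
    by_cases hcyc : IsCyclic (Subgroup.centralizer {h})
    · exact cyclic_case σ hinv hcyc hc
    · exact hσ h D hh hD hcyc hinv c hc
  refine allDisjoint_of fun x => ?_
  refine SD.of_span (S := Set.range u) ?_ x (by rw [hu.dense]; trivial)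
  rintro _ ⟨g, rfl⟩
  exact sd_group (X := X) hu' hG hab' ct σ hQ α hα g

theorem unipotent_of_entropy (A G : Type) [CStarAlgebra A] [Group G] (u : G → A)
    (τ : A →L[ℂ] ℂ) (hu : RedAlg u τ) (X : Type) [TopologicalSpace X] [CompactSpace X] [T2Space X]
    [Infinite X] [MulAction G X] (hG : ConvergenceAction G X) (hab : AbelianStabilisers G X)
    (hmul : ∀ g h, u (g * h) = u g * u h) (hT : Toral G) (σ : MulAut G)
    (α : A →⋆ₐ[ℂ] A) (hα : Covers u σ α) (hent : ZeroEntropy α) : PeripherallyUnipotent σ := by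
  have hu' : Pool.Agent.W726.NS.RedAlg u τ := ⟨hu.unit, hu.mul, hu.dense, hu.one, hu.zero, hu.pos⟩
  have hab' : ∀ p : X, ∀ a ∈ MulAction.stabilizer G p, ∀ b ∈ MulAction.stabilizer G p,
      Commute a b := fun p a ha b hb => hab p a b ha hb
  have ct : CT G := ct_of_torsionFree (X := X) hG hab' hT.1
  intro h D hh hD _ hinv c hc
  obtain ⟨K, _, _, _, π, hπ, hE⟩ := hent
  have hπ' : ∀ a, ‖(π.toAlgHom.toLinearMap : A →ₗ[ℂ] (K →L[ℂ] K)) a‖ = ‖a‖ := fun a =>
    NonUnitalStarAlgHom.norm_map π hπ a
  refine unipotent_of_ent0 hu' hmul hα (π.toAlgHom.toLinearMap : A →ₗ[ℂ] (K →L[ℂ] K)) hπ' hD hinv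
    (fun x hx y hy => ct h hh x y (mem_Cen.1 hx) (mem_Cen.1 hy)) (hT.2 h hh)
    (fun x _ hx => hT.1 x hx) hc ?_
  intro ε δ hε hδ
  refine Eventually.frequently ?_
  filter_upwards [hE {u c} δ ε hδ hε] with n hn
  obtain ⟨k, hk, φ, ψ, hφ, hψ, happ⟩ := hn
  exact ⟨k, hk, φ, ψ, hφ, hψ, fun j hj =>
    (happ _ ⟨u c, Finset.mem_singleton_self _, j, hj, rfl⟩).le⟩

/-- **Möbius disjointness for zero entropy automorphisms of toral relatively hyperbolic groups.**

Let `G` be a countable group which acts on an infinite compact Hausdorff space as a convergence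
group with abelian point stabilisers, let `A` be the reduced C*-algebra of `G`, possibly twisted by
a cocycle, and let `α` be an endomorphism of `A` which covers an automorphism `σ` of `G`.

(1) Let `A` be untwisted and let `G` be toral, that is, torsion-free with finitely generated
centralisers of the nontrivial elements. (For example `G` is a subgroup of a toral relatively
hyperbolic group, or a torsion-free discrete subgroup of `PSL(2, ℂ)`.) If `α` has zero entropy then
`σ` is quasi-unipotent on the periodic non-cyclic centralisers, and `α` is Möbius disjoint, and so is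
each system generated by it over eigenvectors, and each subsystem of such a system.

(2) Let `G` be torsion-free, or let at least the centralisers of the nontrivial elements be abelian.
If `σ` is quasi-unipotent on the periodic non-cyclic centralisers, then `α` is Möbius disjoint, with
the systems as in (1); here `A` may be twisted. -/
theorem result (A G : Type) [CStarAlgebra A] [Group G] [Countable G] (u : G → A) (τ : A →L[ℂ] ℂ)
    (hu : RedAlg u τ) (X : Type) [TopologicalSpace X] [CompactSpace X] [T2Space X] [Infinite X]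
    [MulAction G X] (hG : ConvergenceAction G X) (hab : AbelianStabilisers G X)
    (σ : MulAut G) (α : A →⋆ₐ[ℂ] A) (hα : Covers u σ α) :
    ((∀ g h, u (g * h) = u g * u h) → Toral G → ZeroEntropy α →
      PeripherallyUnipotent σ ∧ AllDisjoint α) ∧
    (TorsionFreeOrCT G → PeripherallyUnipotent σ → AllDisjoint α) := by
  refine ⟨fun hmul hT hent => ?_, fun hct hσ =>
    disjoint_of_unipotent A G u τ hu X hG hab hct σ hσ α hα⟩
  have hσ := unipotent_of_entropy A G u τ hu X hG hab hmul hT σ α hα hent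
  exact ⟨hσ, disjoint_of_unipotent A G u τ hu X hG hab (Or.inl hT.1) σ hσ α hα⟩

/-- The reduced C*-algebra of `G`, as the closed `*`-algebra generated by the left translations
`lam g` of `ℓ²(G)`, with its canonical trace, is an example. -/
theorem regular (G : Type) [Group G] :
    RedAlg (Pool.Agent.W726.NS.lam : G → Pool.Agent.H379R3.CS.reducedCStar G)
      (Pool.Agent.W726.NS.trc G) :=
  have h := Pool.Agent.W726.NS.redAlg_regular G
  ⟨h.unit, h.mul, h.dense, h.one, h.zero, h.pos⟩

end Pool.Agent.Results.MP_7a8f48_an.RelativelyHyperbolic
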